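import Mathlib

/-!
Morphic words: definitions (shared with the proof of THEOREM A).
-/

set_option autoImplicit false

namespace AW.HE

/-- the morphism `f` on words -/
def Fw {Q : Type*} (f : Q → List Q) (w : List Q) : List Q := w.flatMap f

/-- `phi (F^k w)` -/
def Cw {Q A : Type*} (f : Q → List Q) (phi : Q → List A) (w : List Q) (k : ℕ) : List A :=
  ((Fw f)^[k] w).flatMap phi

/-- the system generates the infinite word `u` -/
def Gen {Q A : Type*} (f : Q → List Q) (phi : Q → List A) (a : Q) (u : ℕ → A) : Prop :=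
  (∃ x, f a = a :: x) ∧ (∀ k, Cw f phi [a] k = (List.range (Cw f phi [a] k).length).map u) ∧
    ∀ n, ∃ k, n < (Cw f phi [a] k).length

/-- tracks -/
structure Track {Q A : Type*} (f : Q → List Q) (phi : Q → List A) (a : Q) (y al : List Q) (t : Q)
    (g K B c : ℕ) : Prop where
  hB : 1 ≤ B
  h1 : y ++ [t] <+: (Fw f)^[c] [a]
  h2 : al ++ [t] <+: (Fw f)^[B] [t]
  h3 : g ≤ (Cw f phi [t] K).length

/-- the lengths of a track -/
def TLen {Q A : Type*} (f : Q → List Q) (phi : Q → List A) (y al : List Q) (g K B n : ℕ) : ℕ :=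
  (Cw f phi y (K + n * B)).length +
    ∑ i ∈ Finset.range n, (Cw f phi al (K + i * B)).length + g

variable {Q Q' A : Type*} {f : Q → List Q} {phi : Q → List A}

theorem Fw_append (w w' : List Q) : Fw f (w ++ w') = Fw f w ++ Fw f w' := by
  unfold Fw
  rw [List.flatMap_append]

theorem Fw_iter_append (k : ℕ) (w w' : List Q) :
    (Fw f)^[k] (w ++ w') = (Fw f)^[k] w ++ (Fw f)^[k] w' := by
  induction k generalizing w w' with
  | zero => rfl
  | succ k ih => rw [Function.iterate_succ_apply, Function.iterate_succ_apply,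
      Function.iterate_succ_apply, Fw_append, ih]

theorem Fw_nil : Fw f ([] : List Q) = [] := rfl

theorem Fw_iter_nil (k : ℕ) : (Fw f)^[k] ([] : List Q) = [] := by
  induction k with
  | zero => rfl
  | succ k ih => rw [Function.iterate_succ_apply, Fw_nil, ih]

theorem Cw_append (w w' : List Q) (k : ℕ) : Cw f phi (w ++ w') k = Cw f phi w k ++ Cw f phi w' k := by
  unfold Cw
  rw [Fw_iter_append, List.flatMap_append]

theorem Cw_nil (k : ℕ) : Cw f phi [] k = [] := by
  unfold Cw
  rw [Fw_iter_nil]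
  rfl

theorem Cw_cons (s : Q) (w : List Q) (k : ℕ) : Cw f phi (s :: w) k = Cw f phi [s] k ++ Cw f phi w k :=
  Cw_append [s] w k

theorem Cw_zero (w : List Q) : Cw f phi w 0 = w.flatMap phi := rfl

theorem Cw_add (w : List Q) (k j : ℕ) : Cw f phi w (k + j) = Cw f phi ((Fw f)^[j] w) k := by
  unfold Cw
  rw [Function.iterate_add_apply]

theorem Cw_succ (w : List Q) (k : ℕ) : Cw f phi w (k + 1) = Cw f phi (Fw f w) k := Cw_add w k 1

theorem Fw_single (s : Q) : Fw f [s] = f s := by
  unfold Fw
  rw [List.flatMap_singleton]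

theorem Cw_flatMap {β : Type*} (l : List β) (g : β → List Q) (k : ℕ) :
    Cw f phi (l.flatMap g) k = l.flatMap (fun b => Cw f phi (g b) k) := by
  induction l with
  | nil => exact Cw_nil k
  | cons b l ih => rw [List.flatMap_cons, Cw_append, ih, List.flatMap_cons]

theorem Fw_prefix {w w' : List Q} (h : w <+: w') (k : ℕ) : (Fw f)^[k] w <+: (Fw f)^[k] w' := by
  obtain ⟨v, rfl⟩ := h
  rw [Fw_iter_append]
  exact List.prefix_append _ _

theorem Cw_prefix {w w' : List Q} (h : w <+: w') (k : ℕ) : Cw f phi w k <+: Cw f phi w' k := by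
  obtain ⟨v, rfl⟩ := h
  rw [Cw_append]
  exact List.prefix_append _ _

/-- systems with a letter map -/
theorem Fw_map {f' : Q' → List Q'} {π : Q → Q'} (hf : ∀ s, (f s).map π = f' (π s)) (w : List Q) (k : ℕ) :
    ((Fw f)^[k] w).map π = (Fw f')^[k] (w.map π) := by
  induction k generalizing w with
  | zero => rfl
  | succ k ih =>
    rw [Function.iterate_succ_apply, Function.iterate_succ_apply, ih]
    congr 1
    unfold Fw
    rw [List.map_flatMap, List.flatMap_map]
    congr 1
    funext s
    exact hf s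

theorem Cw_map {f' : Q' → List Q'} {phi' : Q' → List A} {π : Q → Q'} (hf : ∀ s, (f s).map π = f' (π s))
    (hphi : ∀ s, phi s = phi' (π s)) (w : List Q) (k : ℕ) : Cw f' phi' (w.map π) k = Cw f phi w k := by
  unfold Cw
  rw [← Fw_map hf, List.flatMap_map]
  congr 1
  funext s
  exact (hphi s).symm

/-! ### The words of a track -/

/-- the second part of the words of a track -/
def TV (f : Q → List Q) (phi : Q → List A) (al : List Q) (t : Q) (g K B : ℕ) : ℕ → List A
  | 0 => (Cw f phi [t] K).take g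
  | n + 1 => Cw f phi al (K + n * B) ++ TV f phi al t g K B n

/-- the words of a track -/
def TU (f : Q → List Q) (phi : Q → List A) (y al : List Q) (t : Q) (g K B n : ℕ) : List A :=
  Cw f phi y (K + n * B) ++ TV f phi al t g K B n

theorem TV_length {al : List Q} {t : Q} {g K B : ℕ} (h3 : g ≤ (Cw f phi [t] K).length) (n : ℕ) :
    (TV f phi al t g K B n).length = ∑ i ∈ Finset.range n, (Cw f phi al (K + i * B)).length + g := by
  induction n with
  | zero =>
    rw [Finset.range_zero, Finset.sum_empty, zero_add]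
    unfold TV
    rw [List.length_take, min_eq_left h3]
  | succ n ih =>
    unfold TV
    rw [List.length_append, ih, Finset.sum_range_succ]
    omega

theorem TU_length {y al : List Q} {t : Q} {g K B : ℕ} (h3 : g ≤ (Cw f phi [t] K).length) (n : ℕ) :
    (TU f phi y al t g K B n).length = TLen f phi y al g K B n := by
  unfold TU TLen
  rw [List.length_append, TV_length h3]
  omega

theorem TV_prefix {al : List Q} {t : Q} {g K B : ℕ} (h2 : al ++ [t] <+: (Fw f)^[B] [t]) (n : ℕ) :
    TV f phi al t g K B n <+: Cw f phi [t] (K + n * B) := by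
  induction n with
  | zero =>
    unfold TV
    rw [Nat.zero_mul, Nat.add_zero]
    exact List.take_prefix _ _
  | succ n ih =>
    unfold TV
    have h : Cw f phi [t] (K + (n + 1) * B) = Cw f phi ((Fw f)^[B] [t]) (K + n * B) := by
      rw [← Cw_add]
      congr 1
      ring
    rw [h]
    obtain ⟨v, hv⟩ := h2
    rw [← hv, Cw_append, Cw_append, List.append_assoc, List.prefix_append_right_inj]
    exact ih.trans (List.prefix_append _ _)

theorem TU_prefix {a t : Q} {y al : List Q} {g K B c : ℕ} (h : Track f phi a y al t g K B c) (n : ℕ) :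
    TU f phi y al t g K B n <+: Cw f phi [a] (K + n * B + c) := by
  rw [Cw_add]
  obtain ⟨v, hv⟩ := h.h1
  unfold TU
  rw [← hv, Cw_append, Cw_append, List.append_assoc, List.prefix_append_right_inj]
  exact (TV_prefix h.h2 n).trans (List.prefix_append _ _)

theorem prefix_of_range {u : ℕ → A} {l l' : List A} (h : l <+: l') (h' : l' = (List.range l'.length).map u) :
    l = (List.range l.length).map u := by
  have h1 : l = l'.take l.length := List.prefix_iff_eq_take.1 h
  have h2 : l.length ≤ l'.length := h.length_le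
  calc l = l'.take l.length := h1
    _ = ((List.range l'.length).map u).take l.length := by rw [← h']
    _ = (List.range l.length).map u := by
      rw [← List.map_take, List.take_range, min_eq_left h2]

theorem TU_word {a t : Q} {y al : List Q} {g K B c : ℕ} {u : ℕ → A} (hg : Gen f phi a u)
    (h : Track f phi a y al t g K B c) (n : ℕ) :
    TU f phi y al t g K B n = (List.range (TLen f phi y al g K B n)).map u := by
  have h1 := prefix_of_range (TU_prefix h n) (hg.2.1 _)
  rw [TU_length h.h3] at h1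
  exact h1

/-- the word of the start letter begins with the start letter -/
theorem iter_start {a : Q} (h : ∃ x, f a = a :: x) (k : ℕ) : ∃ x, (Fw f)^[k] [a] = a :: x := by
  obtain ⟨x, hx⟩ := h
  induction k with
  | zero => exact ⟨[], rfl⟩
  | succ k ih =>
    obtain ⟨z, hz⟩ := ih
    rw [Function.iterate_succ_apply', hz]
    refine ⟨x ++ Fw f z, ?_⟩
    unfold Fw
    rw [List.flatMap_cons, hx]
    rfl

theorem Gen_mono {a : Q} (h : ∃ x, f a = a :: x) {k k' : ℕ} (hk : k ≤ k') :
    Cw f phi [a] k <+: Cw f phi [a] k' := by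
  obtain ⟨j, rfl⟩ := Nat.exists_eq_add_of_le hk
  rw [Cw_add]
  obtain ⟨x, hx⟩ := iter_start h j
  rw [hx]
  exact Cw_prefix ⟨x, rfl⟩ k

/-- a track with nonempty first word has unbounded lengths -/
theorem TLen_unbounded {a t : Q} {y al : List Q} {g K B c : ℕ} {u : ℕ → A} (hg : Gen f phi a u)
    (h : Track f phi a y al t g K B c) (hy : y ≠ []) (N : ℕ) : ∃ n, N < TLen f phi y al g K B n := by
  obtain ⟨k, hk⟩ := hg.2.2 N
  refine ⟨k, ?_⟩
  obtain ⟨s, z, rfl⟩ := List.exists_cons_of_ne_nil hy
  have hs : s = a := by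
    obtain ⟨x, hx⟩ := iter_start hg.1 c
    obtain ⟨v, hv⟩ := h.h1
    rw [hx, List.cons_append, List.cons_append] at hv
    exact (List.cons.inj hv).1
  subst hs
  have h1 : (Cw f phi [s] k).length ≤ (Cw f phi [s] (K + k * B)).length :=
    (Gen_mono hg.1 (by have := Nat.le_mul_of_pos_right k h.hB; omega)).length_le
  have h2 : (Cw f phi [s] (K + k * B)).length ≤ (Cw f phi (s :: z) (K + k * B)).length := by
    rw [Cw_cons s z, List.length_append]
    omega
  unfold TLen
  omega

/-! ### The system of a track -/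

/-- the morphism of the system of a track -/
def fT (f : Q → List Q) (al : List Q) (B : ℕ) : Option Q → List (Option Q)
  | none => al.map some ++ [none]
  | some s => ((Fw f)^[B] [s]).map some

/-- the outputs of the system of a track -/
def phiT (f : Q → List Q) (phi : Q → List A) (t : Q) (g K : ℕ) : Option Q → List A
  | none => (Cw f phi [t] K).take g
  | some s => Cw f phi [s] K

theorem fT_iter {al : List Q} {B : ℕ} (w : List Q) (n : ℕ) :
    (Fw (fT f al B))^[n] (w.map some) = ((Fw f)^[n * B] w).map some := by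
  induction n with
  | zero => rw [Nat.zero_mul]; rfl
  | succ n ih =>
    rw [Function.iterate_succ_apply', ih, Nat.succ_mul, Nat.add_comm, Function.iterate_add_apply]
    generalize (Fw f)^[n * B] w = v
    induction v with
    | nil =>
      rw [Fw_iter_nil]
      rfl
    | cons s v ihv =>
      have h1 : (s :: v : List Q) = [s] ++ v := rfl
      rw [h1, List.map_append, Fw_append, ihv, Fw_iter_append, List.map_append]
      congr 1
      rw [List.map_singleton, Fw_single]
      rfl

theorem CT_some {al : List Q} {t : Q} {g K B : ℕ} (w : List Q) (n : ℕ) :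
    Cw (fT f al B) (phiT f phi t g K) (w.map some) n = Cw f phi w (K + n * B) := by
  have h : ∀ v : List Q, (v.map some).flatMap (phiT f phi t g K) = Cw f phi v K := by
    intro v
    rw [List.flatMap_map]
    induction v with
    | nil => exact (Cw_nil K).symm
    | cons s v ih =>
      rw [List.flatMap_cons, ih, Cw_cons s v]
      rfl
  have h2 : Cw (fT f al B) (phiT f phi t g K) (w.map some) n =
      ((Fw (fT f al B))^[n] (w.map some)).flatMap (phiT f phi t g K) := rfl
  rw [h2, fT_iter, h, ← Cw_add]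

theorem CT_none {al : List Q} {t : Q} {g K B : ℕ} (n : ℕ) :
    Cw (fT f al B) (phiT f phi t g K) [none] n = TV f phi al t g K B n := by
  induction n with
  | zero =>
    rw [Cw_zero, List.flatMap_singleton]
    rfl
  | succ n ih =>
    rw [Cw_succ, Fw_single]
    have h : fT f al B none = al.map some ++ [none] := rfl
    rw [h, Cw_append, ih, CT_some]
    rfl

/-- the words of a track are the words of its system -/
theorem CT_eq {y al : List Q} {t : Q} {g K B : ℕ} (n : ℕ) :
    Cw (fT f al B) (phiT f phi t g K) (y.map some ++ [none]) n = TU f phi y al t g K B n := by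
  rw [Cw_append, CT_some, CT_none]
  rfl

/-- soundness: two tracks with the same words -/
theorem eq_of_tracks {Q1 Q2 : Type*} {f1 : Q1 → List Q1} {phi1 : Q1 → List A} {a1 : Q1} {u1 : ℕ → A}
    {f2 : Q2 → List Q2} {phi2 : Q2 → List A} {a2 : Q2} {u2 : ℕ → A} (g1 : Gen f1 phi1 a1 u1)
    (g2 : Gen f2 phi2 a2 u2) {y1 al1 : List Q1} {t1 : Q1} {γ1 K1 B1 c1 : ℕ}
    (h1 : Track f1 phi1 a1 y1 al1 t1 γ1 K1 B1 c1) {y2 al2 : List Q2} {t2 : Q2} {γ2 K2 B2 c2 : ℕ}
    (h2 : Track f2 phi2 a2 y2 al2 t2 γ2 K2 B2 c2) (hy : y1 ≠ [])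
    (he : ∀ n, TU f1 phi1 y1 al1 t1 γ1 K1 B1 n = TU f2 phi2 y2 al2 t2 γ2 K2 B2 n) : u1 = u2 := by
  funext i
  obtain ⟨n, hn⟩ := TLen_unbounded g1 h1 hy i
  have e := he n
  have hl : TLen f1 phi1 y1 al1 γ1 K1 B1 n = TLen f2 phi2 y2 al2 γ2 K2 B2 n := by
    rw [← TU_length h1.h3 (y := y1) (al := al1) (B := B1), ← TU_length h2.h3 (y := y2) (al := al2) (B := B2), e]
  rw [TU_word g1 h1, TU_word g2 h2, ← hl] at e
  exact List.map_inj_left.1 e i (List.mem_range.2 hn)

/-- tracks of two systems with the same lengths have the same words -/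
theorem tracks_eq {Q1 Q2 : Type*} {f1 : Q1 → List Q1} {phi1 : Q1 → List A} {a1 : Q1}
    {f2 : Q2 → List Q2} {phi2 : Q2 → List A} {a2 : Q2} {u : ℕ → A} (g1 : Gen f1 phi1 a1 u)
    (g2 : Gen f2 phi2 a2 u) {y1 al1 : List Q1} {t1 : Q1} {γ1 K1 B1 c1 : ℕ}
    (h1 : Track f1 phi1 a1 y1 al1 t1 γ1 K1 B1 c1) {y2 al2 : List Q2} {t2 : Q2} {γ2 K2 B2 c2 : ℕ}
    (h2 : Track f2 phi2 a2 y2 al2 t2 γ2 K2 B2 c2)
    (he : ∀ n, TLen f1 phi1 y1 al1 γ1 K1 B1 n = TLen f2 phi2 y2 al2 γ2 K2 B2 n) (n : ℕ) :
    TU f1 phi1 y1 al1 t1 γ1 K1 B1 n = TU f2 phi2 y2 al2 t2 γ2 K2 B2 n := by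
  rw [TU_word g1 h1, TU_word g2 h2, he]

/-- tracks under a letter map -/
theorem Track.map {f' : Q' → List Q'} {phi' : Q' → List A} {π : Q → Q'} (hf : ∀ s, (f s).map π = f' (π s))
    (hphi : ∀ s, phi s = phi' (π s)) {a t : Q} {y al : List Q} {g K B c : ℕ}
    (h : Track f phi a y al t g K B c) : Track f' phi' (π a) (y.map π) (al.map π) (π t) g K B c := by
  refine ⟨h.hB, ?_, ?_, ?_⟩
  · have h1 := h.h1.map π
    rw [Fw_map hf, List.map_append] at h1
    exact h1
  · have h1 := h.h2.map π
    rw [Fw_map hf, List.map_append] at h1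
    exact h1
  · have h1 := Cw_map hf hphi [t] K
    rw [List.map_singleton] at h1
    rw [h1]
    exact h.h3

theorem TLen_map {f' : Q' → List Q'} {phi' : Q' → List A} {π : Q → Q'} (hf : ∀ s, (f s).map π = f' (π s))
    (hphi : ∀ s, phi s = phi' (π s)) (y al : List Q) (g K B n : ℕ) :
    TLen f' phi' (y.map π) (al.map π) g K B n = TLen f phi y al g K B n := by
  unfold TLen
  rw [Cw_map hf hphi]
  simp only [Cw_map hf hphi]

theorem Gen.of_map {f' : Q' → List Q'} {phi' : Q' → List A} {π : Q → Q'} (hf : ∀ s, (f s).map π = f' (π s))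
    (hphi : ∀ s, phi s = phi' (π s)) {a : Q} {u : ℕ → A} (h : Gen f' phi' (π a) u)
    (ha : ∃ x, f a = a :: x) : Gen f phi a u := by
  have h1 : ∀ k, Cw f' phi' [π a] k = Cw f phi [a] k := by
    intro k
    have := Cw_map hf hphi [a] k
    rwa [List.map_singleton] at this
  refine ⟨ha, fun k => ?_, fun n => ?_⟩
  · rw [← h1]
    exact h.2.1 k
  · obtain ⟨k, hk⟩ := h.2.2 n
    exact ⟨k, by rw [← h1]; exact hk⟩

end AW.HE
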