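import Pool.Agent.Lib.MP_dd05d9_lc.HE.EMv
import Pool.Agent.Lib.MP_dd05d9_lc.HE.EDef

/-!
The certificate for the equality of two sequences of words: definition.
-/

set_option autoImplicit false

namespace AW.HE

/-- the polynomial of a word: `v s` = value of the letter, `p s` = power of the base -/
def pol {Q X : Type*} (v p : Q → X) (w : List Q) : List (List X) :=
  w.foldr (fun s acc => [v s] :: acc.map (fun m => p s :: m)) []

/-- polynomial of the first system at level `k` -/
def D1 {Q1 : Type*} (Q2 : Type*) (f1 : Q1 → List Q1) (Y1 : List Q1) (k : ℕ) : List (List ((Q1 ⊕ Q2) × Bool)) :=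
  pol (fun s => (Sum.inl s, false)) (fun s => (Sum.inl s, true)) ((Fw f1)^[k] Y1)

/-- polynomial of the second system at level `k` -/
def D2 (Q1 : Type*) {Q2 : Type*} (f2 : Q2 → List Q2) (Y2 : List Q2) (k : ℕ) : List (List ((Q1 ⊕ Q2) × Bool)) :=
  pol (fun s => (Sum.inr s, false)) (fun s => (Sum.inr s, true)) ((Fw f2)^[k] Y2)

/-- certificates: `k` and the polynomials `a i`, `b i` (`q i = a i - b i`) -/
abbrev Crt (X : Type*) : Type _ := ℕ × List (List (List X)) × List (List (List X))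

/-- one side of the identity -/
def side {X : Type*} (c : Crt X) (P P' : ℕ → List (List X)) : List (List X) :=
  P c.1 ++ (List.range c.1).flatMap fun i => lmul (c.2.1.getD i []) (P' i) ++ lmul (c.2.2.getD i []) (P i)

/-- the check of a certificate -/
def chk {Q1 Q2 : Type*} [DecidableEq Q1] [DecidableEq Q2] (f1 : Q1 → List Q1) (phi1 : Q1 → List ℕ)
    (Y1 : List Q1) (f2 : Q2 → List Q2) (phi2 : Q2 → List ℕ) (Y2 : List Q2) (c : Crt ((Q1 ⊕ Q2) × Bool)) : Bool :=
  ((List.range c.1).all fun i => Cw f1 phi1 Y1 i == Cw f2 phi2 Y2 i) &&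
    peqv (side c (D1 Q2 f1 Y1) (D2 Q1 f2 Y2)) (side c (D2 Q1 f2 Y2) (D1 Q2 f1 Y1))

/-- the check of a track -/
def trkB {Q : Type*} [DecidableEq Q] (f : Q → List Q) (phi : Q → List ℕ) (a : Q) (y al : List Q) (t : Q)
    (g K B c : ℕ) : Bool :=
  decide (1 ≤ B) && (((Fw f)^[c] [a]).take (y.length + 1) == y ++ [t]) &&
    (((Fw f)^[B] [t]).take (al.length + 1) == al ++ [t]) && decide (g ≤ (Cw f phi [t] K).length)

theorem trkB_iff {Q : Type*} [DecidableEq Q] {f : Q → List Q} {phi : Q → List ℕ} {a : Q} {y al : List Q} {t : Q}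
    {g K B c : ℕ} : trkB f phi a y al t g K B c = true ↔ Track f phi a y al t g K B c := by
  have h : ∀ (z w : List Q), (w.take (z.length + 1) == z ++ [t]) = true ↔ z ++ [t] <+: w := by
    intro z w
    rw [beq_iff_eq, List.prefix_iff_eq_take, List.length_append, List.length_singleton]
    exact ⟨fun h => h.symm, fun h => h.symm⟩
  unfold trkB
  rw [Bool.and_eq_true, Bool.and_eq_true, Bool.and_eq_true, decide_eq_true_iff, decide_eq_true_iff, h, h]
  constructor
  · rintro ⟨⟨⟨h1, h2⟩, h3⟩, h4⟩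
    exact ⟨h1, h2, h3, h4⟩
  · rintro ⟨h1, h2, h3, h4⟩
    exact ⟨⟨⟨h1, h2⟩, h3⟩, h4⟩

end AW.HE
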