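import Pool.Agent.Lib.MP_dd05d9_lc.HE.EChk
import Pool.Agent.Lib.MP_dd05d9_lc.RE1

/-!
The check is primitive recursive; existence of certificates of any Primcodable type is recursively enumerable.
-/

set_option autoImplicit false

namespace AW.HE

variable {α X Q Q1 Q2 β : Type} [Primcodable α] [Primcodable X] [DecidableEq X] [Primcodable Q]
  [Primcodable Q1] [Primcodable Q2] [DecidableEq Q] [DecidableEq Q1] [DecidableEq Q2] [Primcodable β]

omit [DecidableEq X] in
private theorem EPr_all {f : α → List X} {g : α → X → Bool} (hf : Primrec f) (hg : Primrec₂ g) :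
    Primrec (fun a => (f a).all (g a)) :=
  (Primrec.list_foldr hf (Primrec.const true)
    (Primrec.and.comp (hg.comp Primrec.fst (Primrec.fst.comp Primrec.snd))
      (Primrec.snd.comp Primrec.snd)).to₂).of_eq (fun a => by
    induction f a with
    | nil => rfl
    | cons b l ih => rw [List.foldr_cons, ih, List.all_cons])

omit [DecidableEq X] in
private theorem EPr_filter {f : α → List X} {g : α → X → Bool} (hf : Primrec f) (hg : Primrec₂ g) :
    Primrec (fun a => (f a).filter (g a)) :=
  (Primrec.list_foldr hf (Primrec.const ([] : List X))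
    (Primrec.cond (hg.comp Primrec.fst (Primrec.fst.comp Primrec.snd))
      (Primrec.list_cons.comp (Primrec.fst.comp Primrec.snd) (Primrec.snd.comp Primrec.snd))
      (Primrec.snd.comp Primrec.snd)).to₂).of_eq (fun a => by
    induction f a with
    | nil => rfl
    | cons b l ih =>
      rw [List.foldr_cons, ih]
      cases h : g a b
      · rw [List.filter_cons_of_neg (by rw [h]; exact Bool.false_ne_true)]
        rfl
      · rw [List.filter_cons_of_pos h]
        rfl)

private theorem EPr_count : Primrec₂ (fun (x : X) (m : List X) => m.count x) := by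
  have h : Primrec (fun z : X × List X => (z.2.filter (fun y => y == z.1)).length) :=
    Primrec.list_length.comp (EPr_filter Primrec.snd
      (Primrec.beq.comp Primrec.snd (Primrec.fst.comp Primrec.fst)).to₂)
  exact h.of_eq (fun z => by
    show _ = z.2.count z.1
    rw [List.count_eq_length_filter])

private theorem EPr_peq : Primrec₂ (peq : List X → List X → Bool) := by
  unfold peq
  have h : Primrec (fun z : List X × List X => (z.1 ++ z.2).all fun x => z.1.count x == z.2.count x) :=
    EPr_all (Primrec.list_append.comp Primrec.fst Primrec.snd)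
      ((Primrec.beq.comp (EPr_count.comp Primrec.snd (Primrec.fst.comp Primrec.fst))
        (EPr_count.comp Primrec.snd (Primrec.snd.comp Primrec.fst))).to₂)
  exact h

private theorem EPr_mcnt : Primrec₂ (mcnt : List X → List (List X) → ℕ) := by
  unfold mcnt
  have h : Primrec (fun z : List X × List (List X) => (z.2.filter fun m' => peq z.1 m').length) :=
    Primrec.list_length.comp (EPr_filter Primrec.snd
      (EPr_peq.comp (Primrec.fst.comp Primrec.fst) Primrec.snd).to₂)
  exact h

theorem peqv_primrec : Primrec₂ (peqv : List (List X) → List (List X) → Bool) := by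
  unfold peqv
  have h : Primrec (fun z : List (List X) × List (List X) =>
      (z.1 ++ z.2).all fun m => mcnt m z.1 == mcnt m z.2) :=
    EPr_all (Primrec.list_append.comp Primrec.fst Primrec.snd)
      ((Primrec.beq.comp (EPr_mcnt.comp Primrec.snd (Primrec.fst.comp Primrec.fst))
        (EPr_mcnt.comp Primrec.snd (Primrec.snd.comp Primrec.fst))).to₂)
  exact h

omit [DecidableEq X] in
theorem lmul_primrec : Primrec₂ (lmul : List (List X) → List (List X) → List (List X)) := by
  unfold lmul
  have h : Primrec (fun z : List (List X) × List (List X) =>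
      z.1.flatMap fun m => z.2.map fun m' => m ++ m') :=
    Primrec.list_flatMap Primrec.fst
      (Primrec.list_map (Primrec.snd.comp Primrec.fst)
        (Primrec.list_append.comp (Primrec.snd.comp Primrec.fst) Primrec.snd).to₂).to₂
  exact h

omit [DecidableEq Q] in
theorem Fw_primrec {f : α → Q → List Q} (hf : Primrec₂ f) :
    Primrec (fun x : (α × List Q) × ℕ => (Fw (f x.1.1))^[x.2] x.1.2) := by
  have h : Primrec₂ (fun (x : (α × List Q) × ℕ) (w : List Q) => Fw (f x.1.1) w) := by
    unfold Fw
    exact (Primrec.list_flatMap Primrec.snd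
      (hf.comp (Primrec.fst.comp (Primrec.fst.comp (Primrec.fst.comp Primrec.fst))) Primrec.snd).to₂).to₂
  exact Primrec.nat_iterate Primrec.snd (Primrec.snd.comp Primrec.fst) h

omit [DecidableEq Q] in
theorem Cw_primrec {f : α → Q → List Q} {phi : α → Q → List ℕ} (hf : Primrec₂ f) (hphi : Primrec₂ phi) :
    Primrec (fun x : (α × List Q) × ℕ => Cw (f x.1.1) (phi x.1.1) x.1.2 x.2) := by
  unfold Cw
  exact Primrec.list_flatMap (Fw_primrec hf)
    (hphi.comp (Primrec.fst.comp (Primrec.fst.comp Primrec.fst)) Primrec.snd).to₂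

omit [DecidableEq X] [DecidableEq Q] in
theorem pol_primrec {v p : Q → X} (hv : Primrec v) (hp : Primrec p) : Primrec (pol v p) := by
  unfold pol
  have h : Primrec (fun z : List Q × (Q × List (List X)) =>
      [v z.2.1] :: z.2.2.map (fun m => p z.2.1 :: m)) := by
    refine Primrec.list_cons.comp ?_ ?_
    · exact Primrec.list_cons.comp (hv.comp (Primrec.fst.comp Primrec.snd)) (Primrec.const [])
    · exact Primrec.list_map (Primrec.snd.comp Primrec.snd)
        (Primrec.list_cons.comp (hp.comp (Primrec.fst.comp (Primrec.snd.comp Primrec.fst))) Primrec.snd).to₂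
  have h2 := Primrec.list_foldr (Primrec.id (α := List Q)) (Primrec.const ([] : List (List X)))
    (h := fun (_ : List Q) (z : Q × List (List X)) => [v z.1] :: z.2.map (fun m => p z.1 :: m)) h
  exact h2.of_eq (fun w => rfl)

private theorem EPr_beqL [DecidableEq β] : Primrec₂ (fun (l l' : List β) => (l == l')) := by
  have h : Primrec₂ (fun (l l' : List β) => decide (l = l')) := Primrec.eq.decide
  exact h.of_eq (fun l l' => by
    rw [Bool.eq_iff_iff, decide_eq_true_iff, beq_iff_eq])

omit [DecidableEq Q1] [DecidableEq Q2] in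
private theorem EPr_D1 {f1 : α → Q1 → List Q1} {Y1 : α → List Q1} (hf1 : Primrec₂ f1) (hY1 : Primrec Y1) :
    Primrec₂ (fun (x : α) (k : ℕ) => D1 Q2 (f1 x) (Y1 x) k) := by
  unfold D1
  have h := (pol_primrec (Q := Q1) (X := (Q1 ⊕ Q2) × Bool)
    (v := fun s => (Sum.inl s, false)) (p := fun s => (Sum.inl s, true))
    (Primrec.pair Primrec.sumInl (Primrec.const false))
    (Primrec.pair Primrec.sumInl (Primrec.const true))).comp
    ((Fw_primrec hf1).comp (Primrec.pair (Primrec.pair Primrec.fst (hY1.comp Primrec.fst)) Primrec.snd :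
      Primrec (fun z : α × ℕ => ((z.1, Y1 z.1), z.2))))
  exact h

omit [DecidableEq Q1] [DecidableEq Q2] in
private theorem EPr_D2 {f2 : α → Q2 → List Q2} {Y2 : α → List Q2} (hf2 : Primrec₂ f2) (hY2 : Primrec Y2) :
    Primrec₂ (fun (x : α) (k : ℕ) => D2 Q1 (f2 x) (Y2 x) k) := by
  unfold D2
  have h := (pol_primrec (Q := Q2) (X := (Q1 ⊕ Q2) × Bool)
    (v := fun s => (Sum.inr s, false)) (p := fun s => (Sum.inr s, true))
    (Primrec.pair Primrec.sumInr (Primrec.const false))
    (Primrec.pair Primrec.sumInr (Primrec.const true))).comp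
    ((Fw_primrec hf2).comp (Primrec.pair (Primrec.pair Primrec.fst (hY2.comp Primrec.fst)) Primrec.snd :
      Primrec (fun z : α × ℕ => ((z.1, Y2 z.1), z.2))))
  exact h

omit [DecidableEq X] in
private theorem EPr_side {P P' : α → ℕ → List (List X)} (hP : Primrec₂ P) (hP' : Primrec₂ P') :
    Primrec₂ (fun (x : α) (c : Crt X) => side c (P x) (P' x)) := by
  unfold side
  have h : Primrec (fun z : α × Crt X => P z.1 z.2.1 ++ (List.range z.2.1).flatMap fun i =>
      lmul (z.2.2.1.getD i []) (P' z.1 i) ++ lmul (z.2.2.2.getD i []) (P z.1 i)) := by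
    refine Primrec.list_append.comp (hP.comp Primrec.fst (Primrec.fst.comp Primrec.snd)) ?_
    refine Primrec.list_flatMap (Primrec.list_range.comp (Primrec.fst.comp Primrec.snd)) ?_
    show Primrec (fun y : (α × Crt X) × ℕ => lmul (y.1.2.2.1.getD y.2 []) (P' y.1.1 y.2) ++
      lmul (y.1.2.2.2.getD y.2 []) (P y.1.1 y.2))
    refine Primrec.list_append.comp ?_ ?_
    · refine lmul_primrec.comp ?_ ?_
      · exact (Primrec.list_getD ([] : List (List X))).comp
          (Primrec.fst.comp (Primrec.snd.comp (Primrec.snd.comp Primrec.fst))) Primrec.snd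
      · exact hP'.comp (Primrec.fst.comp Primrec.fst) Primrec.snd
    · refine lmul_primrec.comp ?_ ?_
      · exact (Primrec.list_getD ([] : List (List X))).comp
          (Primrec.snd.comp (Primrec.snd.comp (Primrec.snd.comp Primrec.fst))) Primrec.snd
      · exact hP.comp (Primrec.fst.comp Primrec.fst) Primrec.snd
  exact h

theorem chk_primrec {f1 : α → Q1 → List Q1} {phi1 : α → Q1 → List ℕ} {Y1 : α → List Q1}
    {f2 : α → Q2 → List Q2} {phi2 : α → Q2 → List ℕ} {Y2 : α → List Q2} (hf1 : Primrec₂ f1)
    (hp1 : Primrec₂ phi1) (hY1 : Primrec Y1) (hf2 : Primrec₂ f2) (hp2 : Primrec₂ phi2) (hY2 : Primrec Y2) :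
    Primrec₂ (fun (x : α) (c : Crt ((Q1 ⊕ Q2) × Bool)) => chk (f1 x) (phi1 x) (Y1 x) (f2 x) (phi2 x) (Y2 x) c) := by
  unfold chk
  refine Primrec.and.comp₂ ?_ ?_
  · have h : Primrec (fun z : α × Crt ((Q1 ⊕ Q2) × Bool) => (List.range z.2.1).all fun i =>
        Cw (f1 z.1) (phi1 z.1) (Y1 z.1) i == Cw (f2 z.1) (phi2 z.1) (Y2 z.1) i) := by
      refine EPr_all (Primrec.list_range.comp (Primrec.fst.comp Primrec.snd)) ?_
      show Primrec (fun y : (α × Crt ((Q1 ⊕ Q2) × Bool)) × ℕ =>
        Cw (f1 y.1.1) (phi1 y.1.1) (Y1 y.1.1) y.2 == Cw (f2 y.1.1) (phi2 y.1.1) (Y2 y.1.1) y.2)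
      refine (EPr_beqL (β := ℕ)).comp ?_ ?_
      · exact (Cw_primrec hf1 hp1).comp
          (Primrec.pair (Primrec.pair (Primrec.fst.comp Primrec.fst) (hY1.comp (Primrec.fst.comp Primrec.fst)))
            Primrec.snd)
      · exact (Cw_primrec hf2 hp2).comp
          (Primrec.pair (Primrec.pair (Primrec.fst.comp Primrec.fst) (hY2.comp (Primrec.fst.comp Primrec.fst)))
            Primrec.snd)
    exact h
  · exact peqv_primrec.comp₂ (EPr_side (EPr_D1 hf1 hY1) (EPr_D2 hf2 hY2))
      (EPr_side (EPr_D2 hf2 hY2) (EPr_D1 hf1 hY1))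

omit [DecidableEq Q] in
theorem fT_primrec {f : α → Q → List Q} {al : α → List Q} {B : α → ℕ} (hf : Primrec₂ f) (hal : Primrec al)
    (hB : Primrec B) : Primrec₂ (fun (x : α) (s : Option Q) => fT (f x) (al x) (B x) s) := by
  have h : Primrec (fun z : α × Option Q => Option.casesOn (motive := fun _ => List (Option Q)) z.2
      ((al z.1).map some ++ [none]) (fun s => ((Fw (f z.1))^[B z.1] [s]).map some)) := by
    refine Primrec.option_casesOn Primrec.snd ?_ ?_
    · exact Primrec.list_append.comp
        (Primrec.list_map (hal.comp Primrec.fst) (Primrec.option_some.comp Primrec.snd).to₂)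
        (Primrec.const ([none] : List (Option Q)))
    · show Primrec (fun y : (α × Option Q) × Q => ((Fw (f y.1.1))^[B y.1.1] [y.2]).map some)
      refine Primrec.list_map ?_ (Primrec.option_some.comp Primrec.snd).to₂
      exact (Fw_primrec hf).comp (Primrec.pair (Primrec.pair (Primrec.fst.comp Primrec.fst)
        (Primrec.list_cons.comp Primrec.snd (Primrec.const []))) (hB.comp (Primrec.fst.comp Primrec.fst)))
  exact h.of_eq (fun z => by
    rcases z with ⟨x, _ | s⟩ <;> rfl)

omit [DecidableEq Q] in
theorem phiT_primrec {f : α → Q → List Q} {phi : α → Q → List ℕ} {t : α → Q} {g K : α → ℕ} (hf : Primrec₂ f)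
    (hphi : Primrec₂ phi) (ht : Primrec t) (hg : Primrec g) (hK : Primrec K) :
    Primrec₂ (fun (x : α) (s : Option Q) => phiT (f x) (phi x) (t x) (g x) (K x) s) := by
  have h : Primrec (fun z : α × Option Q => Option.casesOn (motive := fun _ => List ℕ) z.2
      ((Cw (f z.1) (phi z.1) [t z.1] (K z.1)).take (g z.1))
      (fun s => Cw (f z.1) (phi z.1) [s] (K z.1))) := by
    refine Primrec.option_casesOn Primrec.snd ?_ ?_
    · refine Primrec.list_take.comp (hg.comp Primrec.fst) ?_
      exact (Cw_primrec hf hphi).comp (Primrec.pair (Primrec.pair Primrec.fst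
        (Primrec.list_cons.comp (ht.comp Primrec.fst) (Primrec.const []))) (hK.comp Primrec.fst))
    · exact ((Cw_primrec hf hphi).comp (Primrec.pair (Primrec.pair (Primrec.fst.comp Primrec.fst)
        (Primrec.list_cons.comp Primrec.snd (Primrec.const []))) (hK.comp (Primrec.fst.comp Primrec.fst)))).to₂
  exact h.of_eq (fun z => by
    rcases z with ⟨x, _ | s⟩ <;> rfl)

theorem trkB_primrec {f : α → Q → List Q} {phi : α → Q → List ℕ} {y al : α → List Q} {t : α → Q}
    {g K B c : α → ℕ} (a : Q) (hf : Primrec₂ f) (hphi : Primrec₂ phi) (hy : Primrec y) (hal : Primrec al)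
    (ht : Primrec t) (hg : Primrec g) (hK : Primrec K) (hB : Primrec B) (hc : Primrec c) :
    Primrec (fun x : α => trkB (f x) (phi x) a (y x) (al x) (t x) (g x) (K x) (B x) (c x)) := by
  unfold trkB
  have hsingle : Primrec (fun x : α => [t x]) := Primrec.list_cons.comp ht (Primrec.const [])
  refine Primrec.and.comp (Primrec.and.comp (Primrec.and.comp ?_ ?_) ?_) ?_
  · exact (Primrec.nat_le.comp (Primrec.const 1) hB).decide
  · refine (EPr_beqL (β := Q)).comp (Primrec.list_take.comp (Primrec.succ.comp (Primrec.list_length.comp hy)) ?_)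
      (Primrec.list_append.comp hy hsingle)
    exact (Fw_primrec hf).comp (Primrec.pair (Primrec.pair Primrec.id (Primrec.const [a])) hc)
  · refine (EPr_beqL (β := Q)).comp (Primrec.list_take.comp (Primrec.succ.comp (Primrec.list_length.comp hal)) ?_)
      (Primrec.list_append.comp hal hsingle)
    exact (Fw_primrec hf).comp (Primrec.pair (Primrec.pair Primrec.id hsingle) hB)
  · refine (Primrec.nat_le.comp hg (Primrec.list_length.comp ?_)).decide
    exact (Cw_primrec hf hphi).comp (Primrec.pair (Primrec.pair Primrec.id hsingle) hK)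

theorem re_exists_code {p : α → β → Bool} (hp : Primrec₂ p) : REPred (fun a => ∃ b, p a b = true) := by
  have hR : PrimrecRel (fun (a : α) (n : ℕ) => (Option.casesOn (motive := fun _ => Bool)
      (Encodable.decode (α := β) n) false (fun b => p a b)) = true) := by
    refine Primrec.eq.comp ?_ (Primrec.const true)
    refine Primrec.option_casesOn (Primrec.decode.comp Primrec.snd) (Primrec.const false) ?_
    exact (hp.comp (Primrec.fst.comp Primrec.fst) Primrec.snd).to₂
  refine (re_exists hR).of_eq ?_
  intro a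
  constructor
  · rintro ⟨n, hn⟩
    cases hd : Encodable.decode (α := β) n with
    | none =>
      rw [hd] at hn
      exact absurd hn Bool.false_ne_true
    | some b =>
      rw [hd] at hn
      exact ⟨b, hn⟩
  · rintro ⟨b, hb⟩
    refine ⟨Encodable.encode b, ?_⟩
    rw [Encodable.encodek]
    exact hb

theorem re_or {p q : α → Prop} (hp : REPred p) (hq : REPred q) : REPred (fun a => p a ∨ q a) := by
  obtain ⟨k, hk, h⟩ := Partrec.merge' hp hq
  refine (hk.dom_re).of_eq ?_
  intro a
  rw [(h a).2]
  simp [Part.assert]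

end AW.HE
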