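import Pool.Agent.Lib.MP_dd05d9_lc.HE.EChk
import Pool.Agent.Lib.MP_dd05d9_lc.RE1

/-!
The systems of S15477 as morphic systems with the letters `Option (σ × ℕ)` (`none` = start letter).
-/

set_option autoImplicit false

namespace AW.HE

variable {k : ℕ} {σ : Type}

/-- the morphism -/
def fS (M : DFA (Fin k) σ) (t : List ℕ) : Option (σ × ℕ) → List (Option (σ × ℕ))
  | none => [none, some (M.start, 0)]
  | some (s, q) => (List.finRange k).map fun a => some (M.step s a, tst k t q a.val)

open Classical in
/-- the outputs -/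
noncomputable def phiS (M : DFA (Fin k) σ) (o : List ℕ) : Option (σ × ℕ) → List ℕ
  | none => []
  | some (s, q) => if s ∈ M.accept then [o.getD q 0] else []

private theorem ESys_iter (M : DFA (Fin k) σ) (t : List ℕ) (l : List (σ × ℕ)) (m : ℕ) :
    (Fw (fS M t))^[m] (l.map some) = ((nxt M t)^[m] l).map some := by
  induction m generalizing l with
  | zero => rfl
  | succ m ih =>
    rw [Function.iterate_succ_apply, Function.iterate_succ_apply, ← ih]
    congr 1
    unfold Fw nxt
    rw [List.map_flatMap, List.flatMap_map]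
    congr 1
    funext x
    obtain ⟨s, q⟩ := x
    show (List.finRange k).map (fun a => some (M.step s a, tst k t q a.val)) = _
    rw [List.map_map]
    rfl

theorem Cw_some (M : DFA (Fin k) σ) (t o : List ℕ) (s : σ) (q m : ℕ) :
    Cw (fS M t) (phiS M o) [some (s, q)] m = outs M.accept o ((nxt M t)^[m] [(s, q)]) := by
  have h := ESys_iter M t [(s, q)] m
  rw [List.map_singleton] at h
  unfold Cw
  rw [h, List.flatMap_map]
  unfold outs
  congr 1

theorem Cw_catN (M : DFA (Fin k) σ) (t o : List ℕ) (m : ℕ) :
    Cw (fS M t) (phiS M o) [none] m = catN M t o m := by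
  induction m with
  | zero => rfl
  | succ m ih =>
    rw [Cw_succ, Fw_single]
    have h : fS M t none = [none] ++ [some (M.start, 0)] := rfl
    rw [h, Cw_append, ih, Cw_some]
    unfold catN
    rw [List.range_succ, List.flatMap_append, List.flatMap_singleton]

theorem sys_gen [Fintype σ] {M : DFA (Fin k) σ} (hinf : {w : List (Fin k) | w ∈ M.accepts}.Infinite)
    (t o : List ℕ) : ∃ u : ℕ → ℕ, Gen (fS M t) (phiS M o) none u ∧
      ∀ m, IsPre (cat M t o m) (fun i => (u i : ℤ)) := by
  obtain ⟨f, hf⟩ := cat_word hinf t o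
  have hv : (fun i => ((vl M (t, o) i : ℕ) : ℤ)) = f := funext (fun i => vl_eq hinf hf i)
  refine ⟨fun i => vl M (t, o) i, ⟨⟨[some (M.start, 0)], rfl⟩, fun m => ?_, fun n => ?_⟩, fun m => ?_⟩
  · rw [Cw_catN]
    have h1 := hf m
    unfold IsPre at h1
    have hinj : Function.Injective (fun x : ℕ => (x : ℤ)) := fun a b h => Int.ofNat.inj h
    apply List.map_injective_iff.2 hinj
    show (catN M t o m).map (fun x : ℕ => (x : ℤ)) = _
    rw [catN_map, List.map_map]
    have h2 : ((fun x : ℕ => (x : ℤ)) ∘ fun i => vl M (t, o) i) = f := hv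
    rw [h2]
    have h3 : (catN M t o m).length = (cat M t o m).length := by
      rw [← catN_map, List.length_map]
    rw [h3]
    exact h1
  · refine ⟨Fintype.card σ * (n + 1), ?_⟩
    rw [Cw_catN]
    have h3 : (catN M t o (Fintype.card σ * (n + 1))).length = (cat M t o (Fintype.card σ * (n + 1))).length := by
      rw [← catN_map, List.length_map]
    rw [h3]
    exact cat_len hinf t o n
  · show IsPre (cat M t o m) (fun i => ((vl M (t, o) i : ℕ) : ℤ))
    rw [hv]
    exact hf m

private theorem ESys_getD_le (l : List ℕ) (i : ℕ) : l.getD i 0 ≤ l.sum := by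
  rcases Nat.lt_or_ge i l.length with h | h
  · rw [List.getD_eq_getElem _ _ h]
    exact List.le_sum_of_mem (List.getElem_mem h)
  · rw [List.getD_eq_default _ _ h]
    exact Nat.zero_le _

theorem sys_finite [Finite σ] (M : DFA (Fin k) σ) (t : List ℕ) : ∃ S : Set (Option (σ × ℕ)), S.Finite ∧
    none ∈ S ∧ ∀ s ∈ S, ∀ r ∈ fS M t s, r ∈ S := by
  refine ⟨{r | ∀ x, r = some x → x.2 ≤ t.sum}, ?_, ?_, ?_⟩
  · have h1 : (insert none (some '' ((Set.univ : Set σ) ×ˢ Set.Iic t.sum)) : Set (Option (σ × ℕ))).Finite :=
      (((Set.finite_univ).prod (Set.finite_Iic _)).image _).insert _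
    refine h1.subset ?_
    intro r hr
    cases r with
    | none => exact Set.mem_insert _ _
    | some x => exact Set.mem_insert_of_mem _ ⟨x, ⟨Set.mem_univ _, hr x rfl⟩, rfl⟩
  · intro x hx
    exact absurd hx (by simp)
  · intro s hs r hr x hx
    subst hx
    cases s with
    | none =>
      have h1 : some x ∈ ([none, some (M.start, 0)] : List (Option (σ × ℕ))) := hr
      simp only [List.mem_cons, reduceCtorEq, Option.some.injEq, List.not_mem_nil, or_false, false_or] at h1
      rw [h1]
      exact Nat.zero_le _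
    | some y =>
      obtain ⟨s', q⟩ := y
      have h1 : some x ∈ (List.finRange k).map fun a => some (M.step s' a, tst k t q a.val) := hr
      obtain ⟨a, -, ha⟩ := List.mem_map.1 h1
      rw [← Option.some.inj ha]
      exact ESys_getD_le t _

theorem sys_bounded (M : DFA (Fin k) σ) (o : List ℕ) : ∃ b : ℕ, ∀ s c, c ∈ phiS M o s → c < b := by
  refine ⟨o.sum + 1, ?_⟩
  intro s c hc
  cases s with
  | none => exact absurd hc (List.not_mem_nil)
  | some y =>
    obtain ⟨s', q⟩ := y
    classical
    have hc' : c ∈ (if s' ∈ M.accept then [o.getD q 0] else ([] : List ℕ)) := hc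
    by_cases h : s' ∈ M.accept
    · rw [if_pos h, List.mem_singleton] at hc'
      rw [hc']
      exact Nat.lt_succ_of_le (ESys_getD_le o q)
    · rw [if_neg h] at hc'
      exact absurd hc' (List.not_mem_nil)

theorem fS_primrec [Finite σ] [Primcodable σ] (M : DFA (Fin k) σ) :
    Primrec₂ (fun (t : List ℕ) (s : Option (σ × ℕ)) => fS M t s) := by
  have h : Primrec (fun z : List ℕ × Option (σ × ℕ) => Option.casesOn (motive := fun _ => List (Option (σ × ℕ)))
      z.2 [none, some (M.start, 0)]
      (fun y => (List.finRange k).map fun a => some (M.step y.1 a, tst k z.1 y.2 a.val))) := by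
    refine Primrec.option_casesOn Primrec.snd (Primrec.const _) ?_
    show Primrec (fun y : (List ℕ × Option (σ × ℕ)) × (σ × ℕ) =>
      (List.finRange k).map fun a => some (M.step y.2.1 a, tst k y.1.1 y.2.2 a.val))
    refine Primrec.list_map (Primrec.const _) ?_
    show Primrec (fun w : ((List ℕ × Option (σ × ℕ)) × (σ × ℕ)) × Fin k =>
      some (M.step w.1.2.1 w.2, tst k w.1.1.1 w.1.2.2 w.2.val))
    refine Primrec.option_some.comp (Primrec.pair ?_ ?_)
    · exact (Primrec.dom_finite (fun y : σ × Fin k => M.step y.1 y.2)).comp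
        ((Primrec.fst.comp (Primrec.snd.comp Primrec.fst)).pair Primrec.snd)
    · exact (tst_primrec k).comp ((Primrec.fst.comp (Primrec.fst.comp Primrec.fst)).pair
        ((Primrec.snd.comp (Primrec.snd.comp Primrec.fst)).pair
          (Primrec.fin_val.comp Primrec.snd)))
  exact h.of_eq (fun z => by
    rcases z with ⟨x, _ | ⟨s, q⟩⟩ <;> rfl)

theorem phiS_primrec [Finite σ] [Primcodable σ] (M : DFA (Fin k) σ) :
    Primrec₂ (fun (o : List ℕ) (s : Option (σ × ℕ)) => phiS M o s) := by
  classical
  have h : Primrec (fun z : List ℕ × Option (σ × ℕ) => Option.casesOn (motive := fun _ => List ℕ)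
      z.2 [] (fun y => bif decide (y.1 ∈ M.accept) then [z.1.getD y.2 0] else [])) := by
    refine Primrec.option_casesOn Primrec.snd (Primrec.const _) ?_
    show Primrec (fun y : (List ℕ × Option (σ × ℕ)) × (σ × ℕ) =>
      bif decide (y.2.1 ∈ M.accept) then [y.1.1.getD y.2.2 0] else [])
    refine Primrec.cond ?_ ?_ (Primrec.const [])
    · exact (Primrec.dom_finite (fun s : σ => decide (s ∈ M.accept))).comp (Primrec.fst.comp Primrec.snd)
    · exact Primrec.list_cons.comp ((Primrec.list_getD 0).comp (Primrec.fst.comp Primrec.fst)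
        (Primrec.snd.comp Primrec.snd)) (Primrec.const [])
  exact h.of_eq (fun z => by
    rcases z with ⟨x, _ | ⟨s, q⟩⟩
    · rfl
    · show (bif decide (s ∈ M.accept) then [x.getD q 0] else []) = if s ∈ M.accept then [x.getD q 0] else []
      by_cases h : s ∈ M.accept
      · simp [h]
      · simp [h])

end AW.HE
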