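import Pool.Agent.Lib.MP_dd05d9_lc.HE.EPol
import Pool.Agent.Lib.MP_dd05d9_lc.HE.EPr
import Pool.Agent.Lib.MP_dd05d9_lc.HE.ESys
import Pool.Agent.Lib.MP_dd05d9_lc.MW.Defs

/-!
Assembly: equality of automatic words is decidable, from THEOREM A (`ThmASt`).
-/

set_option autoImplicit false

namespace AW.HE

/-- THEOREM A -/
def ThmASt : Prop := ∀ (Q1 Q2 : Type) [Finite Q1] [Finite Q2] (S1 : MW.Sys Q1) (S2 : MW.Sys Q2) (u : ℕ → ℕ),
  MW.Gen S1 u → MW.Gen S2 u → ¬ MW.UP u → ∃ L : ℕ → ℕ, MW.TL S1 L ∧ MW.TL S2 L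

/-! ### Translation -/

theorem gen_MW {Q : Type} {f : Q → List Q} {phi : Q → List ℕ} {a : Q} {u : ℕ → ℕ} (h : Gen f phi a u) :
    MW.Gen (⟨f, phi, a⟩ : MW.Sys Q) u := by
  obtain ⟨h1, h2, h3⟩ := h
  refine ⟨h1, fun k => ?_, fun n => ?_⟩
  · intro i hi
    have e : (⟨f, phi, a⟩ : MW.Sys Q).C k [a] = Cw f phi [a] k := rfl
    have hi' : i < (Cw f phi [a] k).length := hi
    show (Cw f phi [a] k).getD i 0 = u (0 + i)
    have h4 := h2 k
    rw [Nat.zero_add, h4]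
    rw [List.getD_eq_getElem _ _ (by rw [List.length_map, List.length_range]; exact hi')]
    rw [List.getElem_map, List.getElem_range]
  · obtain ⟨k, hk⟩ := h3 n
    exact ⟨k, hk.le⟩

theorem track_MW {Q : Type} {f : Q → List Q} {phi : Q → List ℕ} {a : Q} {L : ℕ → ℕ}
    (h : MW.TL (⟨f, phi, a⟩ : MW.Sys Q) L) : ∃ y al t g K B c, y ≠ [] ∧ Track f phi a y al t g K B c ∧
      ∀ n, TLen f phi y al g K B n = L n := by
  obtain ⟨y, t, al, K, B, c, g, hB, hy, h1, h2, h3, h4⟩ := h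
  refine ⟨y, al, t, g, K, B, c, hy, ⟨hB, h1, h2, h3⟩, fun n => ?_⟩
  rw [h4 n]
  have e : ∀ n, K + B * n = K + n * B := fun n => by rw [mul_comm]
  simp only [e]
  rfl

/-- restriction of a system to a closed set of letters -/
def rF {Q : Type} (f : Q → List Q) (S : Set Q) (hS : ∀ s ∈ S, ∀ r ∈ f s, r ∈ S) (s : S) : List S :=
  (f s.1).pmap Subtype.mk (hS s.1 s.2)

theorem rF_map {Q : Type} {f : Q → List Q} {S : Set Q} (hS : ∀ s ∈ S, ∀ r ∈ f s, r ∈ S) (s : S) :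
    (rF f S hS s).map Subtype.val = f s.1 := by
  unfold rF
  rw [List.map_pmap]
  simp

/-- tracks from THEOREM A -/
theorem tracks_of_A (hA : ThmASt) {Q1 Q2 : Type} {f1 : Q1 → List Q1} {phi1 : Q1 → List ℕ} {a1 : Q1}
    {f2 : Q2 → List Q2} {phi2 : Q2 → List ℕ} {a2 : Q2} {u : ℕ → ℕ} (g1 : Gen f1 phi1 a1 u)
    (g2 : Gen f2 phi2 a2 u) {S1 : Set Q1} {S2 : Set Q2} (hS1 : S1.Finite) (hS2 : S2.Finite) (ha1 : a1 ∈ S1)
    (ha2 : a2 ∈ S2) (hc1 : ∀ s ∈ S1, ∀ r ∈ f1 s, r ∈ S1) (hc2 : ∀ s ∈ S2, ∀ r ∈ f2 s, r ∈ S2)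
    (hu : ¬ MW.UP u) : ∃ y1 al1 t1 γ1 K1 B1 c1 y2 al2 t2 γ2 K2 B2 c2, y1 ≠ [] ∧ t1 ∈ S1 ∧ t2 ∈ S2 ∧
      Track f1 phi1 a1 y1 al1 t1 γ1 K1 B1 c1 ∧ Track f2 phi2 a2 y2 al2 t2 γ2 K2 B2 c2 ∧
      ∀ n, TLen f1 phi1 y1 al1 γ1 K1 B1 n = TLen f2 phi2 y2 al2 γ2 K2 B2 n := by
  have : Finite S1 := hS1
  have : Finite S2 := hS2
  have start : ∀ {Q : Type} {f : Q → List Q} {a : Q} {S : Set Q} (hc : ∀ s ∈ S, ∀ r ∈ f s, r ∈ S) (ha : a ∈ S)
      (_ : ∃ x, f a = a :: x), ∃ x, rF f S hc ⟨a, ha⟩ = ⟨a, ha⟩ :: x := by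
    intro Q f a S hc ha hx
    obtain ⟨x, hx⟩ := hx
    have h1 := rF_map hc ⟨a, ha⟩
    rcases h2 : rF f S hc ⟨a, ha⟩ with _ | ⟨s, z⟩
    · rw [h2] at h1
      simp only [List.map_nil] at h1
      rw [hx] at h1
      exact absurd h1 (by simp)
    · rw [h2] at h1
      simp only [List.map_cons] at h1
      rw [hx] at h1
      have h3 := (List.cons.inj h1).1
      exact ⟨z, by rw [show s = ⟨a, ha⟩ from Subtype.ext h3]⟩
  have G1 : Gen (rF f1 S1 hc1) (fun s => phi1 s.1) ⟨a1, ha1⟩ u :=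
    Gen.of_map (f' := f1) (phi' := phi1) (π := Subtype.val) (fun s => rF_map hc1 s) (fun s => rfl) g1
      (start hc1 ha1 g1.1)
  have G2 : Gen (rF f2 S2 hc2) (fun s => phi2 s.1) ⟨a2, ha2⟩ u :=
    Gen.of_map (f' := f2) (phi' := phi2) (π := Subtype.val) (fun s => rF_map hc2 s) (fun s => rfl) g2
      (start hc2 ha2 g2.1)
  obtain ⟨L, hL1, hL2⟩ := hA S1 S2 _ _ u (gen_MW G1) (gen_MW G2) hu
  obtain ⟨y1, al1, t1, γ1, K1, B1, c1, hy1, T1, e1⟩ := track_MW hL1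
  obtain ⟨y2, al2, t2, γ2, K2, B2, c2, hy2, T2, e2⟩ := track_MW hL2
  refine ⟨y1.map Subtype.val, al1.map Subtype.val, t1.1, γ1, K1, B1, c1, y2.map Subtype.val, al2.map Subtype.val,
    t2.1, γ2, K2, B2, c2, fun h => hy1 (List.map_eq_nil_iff.1 h), t1.2, t2.2,
    T1.map (f' := f1) (phi' := phi1) (π := Subtype.val) (fun s => rF_map hc1 s) (fun s => rfl),
    T2.map (f' := f2) (phi' := phi2) (π := Subtype.val) (fun s => rF_map hc2 s) (fun s => rfl), fun n => ?_⟩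
  rw [TLen_map (f' := f1) (phi' := phi1) (π := Subtype.val) (fun s => rF_map hc1 s) (fun s => rfl),
    TLen_map (f' := f2) (phi' := phi2) (π := Subtype.val) (fun s => rF_map hc2 s) (fun s => rfl), e1, e2]

/-- the letters of the system of a track -/
theorem track_closed {Q : Type} {f : Q → List Q} {phi : Q → List ℕ} {a t : Q} {y al : List Q} {g K B c : ℕ}
    {S : Set Q} (hS : S.Finite) (ha : a ∈ S) (ht : t ∈ S) (hc : ∀ s ∈ S, ∀ r ∈ f s, r ∈ S)
    (h : Track f phi a y al t g K B c) : ∃ S' : Set (Option Q), S'.Finite ∧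
      (∀ s ∈ S', ∀ r ∈ fT f al B s, r ∈ S') ∧ ∀ s ∈ y.map some ++ [none], s ∈ S' := by
  have hF : ∀ (s : Q) (n : ℕ), s ∈ S → ∀ r ∈ (Fw f)^[n] [s], r ∈ S := by
    intro s n hs
    exact Fw_closed hc (by intro r hr; rw [List.mem_singleton] at hr; rw [hr]; exact hs) n
  refine ⟨insert none (some '' S), (hS.image _).insert _, ?_, ?_⟩
  · rintro s (rfl | ⟨s', hs', rfl⟩) r hr
    · rcases List.mem_append.1 hr with hr | hr
      · obtain ⟨r', hr', rfl⟩ := List.mem_map.1 hr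
        exact Or.inr ⟨r', hF t B ht r' (h.h2.subset (List.mem_append_left _ hr')), rfl⟩
      · rw [List.mem_singleton] at hr
        exact Or.inl hr
    · obtain ⟨r', hr', rfl⟩ := List.mem_map.1 hr
      exact Or.inr ⟨r', hF s' B hs' r' hr', rfl⟩
  · intro s hs
    rcases List.mem_append.1 hs with hs | hs
    · obtain ⟨s', hs', rfl⟩ := List.mem_map.1 hs
      exact Or.inr ⟨s', hF a c ha s' (h.h1.subset (List.mem_append_left _ hs')), rfl⟩
    · rw [List.mem_singleton] at hs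
      exact Or.inl hs

theorem phiT_bounded {Q : Type} {f : Q → List Q} {phi : Q → List ℕ} {t : Q} {g K b : ℕ}
    (h : ∀ s c, c ∈ phi s → c < b) : ∀ s c, c ∈ phiT f phi t g K s → c < b := by
  intro s c hc
  rcases s with _ | s
  · exact Cw_bounded h [t] K c (List.mem_of_mem_take hc)
  · exact Cw_bounded h [s] K c hc

/-! ### The certificate for the input -/

/-- the data of a track -/
abbrev TD (Q : Type) : Type := List Q × List Q × Q × ℕ × ℕ × ℕ × ℕ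

/-- the letters -/
abbrev LQ (σ : Type) : Type := Option (σ × ℕ)

/-- the certificates -/
abbrev Cer (σ1 σ2 : Type) : Type := (TD (LQ σ1) × TD (LQ σ2)) × Crt ((Option (LQ σ1) ⊕ Option (LQ σ2)) × Bool)

section
variable {k1 k2 : ℕ} {σ1 σ2 : Type} [DecidableEq σ1] [DecidableEq σ2]

/-- the track data `d` is a track of the system of the table `x` -/
noncomputable def trkS {k : ℕ} {σ : Type} [DecidableEq σ] (M : DFA (Fin k) σ) (x : List ℕ × List ℕ) (d : TD (LQ σ)) : Bool :=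
  trkB (fS M x.1) (phiS M x.2) none d.1 d.2.1 d.2.2.1 d.2.2.2.1 d.2.2.2.2.1 d.2.2.2.2.2.1 d.2.2.2.2.2.2

/-- morphism of the system of the track data -/
def fD {k : ℕ} {σ : Type} (M : DFA (Fin k) σ) (x : List ℕ × List ℕ) (d : TD (LQ σ)) :
    Option (LQ σ) → List (Option (LQ σ)) := fT (fS M x.1) d.2.1 d.2.2.2.2.2.1

/-- outputs of the system of the track data -/
noncomputable def phiD {k : ℕ} {σ : Type} (M : DFA (Fin k) σ) (x : List ℕ × List ℕ) (d : TD (LQ σ)) :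
    Option (LQ σ) → List ℕ := phiT (fS M x.1) (phiS M x.2) d.2.2.1 d.2.2.2.1 d.2.2.2.2.1

/-- start word of the track data -/
def yD {σ : Type} (d : TD (LQ σ)) : List (Option (LQ σ)) := d.1.map some ++ [none]

/-- the check of a certificate for the input `x` -/
noncomputable def CH (M1 : DFA (Fin k1) σ1) (M2 : DFA (Fin k2) σ2) (x : Inp) (c : Cer σ1 σ2) : Bool :=
  decide (0 < c.1.1.1.length) && (trkS M1 x.1 c.1.1 && (trkS M2 x.2 c.1.2 &&
    chk (fD M1 x.1 c.1.1) (phiD M1 x.1 c.1.1) (yD c.1.1) (fD M2 x.2 c.1.2) (phiD M2 x.2 c.1.2) (yD c.1.2) c.2))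

theorem CH_sound {M1 : DFA (Fin k1) σ1} {M2 : DFA (Fin k2) σ2} {x : Inp} {u1 u2 : ℕ → ℕ}
    (g1 : Gen (fS M1 x.1.1) (phiS M1 x.1.2) none u1) (g2 : Gen (fS M2 x.2.1) (phiS M2 x.2.2) none u2)
    {c : Cer σ1 σ2} (h : CH M1 M2 x c = true) : u1 = u2 := by
  unfold CH at h
  rw [Bool.and_eq_true, Bool.and_eq_true, Bool.and_eq_true, decide_eq_true_iff] at h
  obtain ⟨h0, h1, h2, h3⟩ := h
  have T1 := trkB_iff.1 h1
  have T2 := trkB_iff.1 h2
  obtain ⟨b1, hb1⟩ := sys_bounded M1 x.1.2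
  obtain ⟨b2, hb2⟩ := sys_bounded M2 x.2.2
  have q1 : ∀ s c, c ∈ phiS M1 x.1.2 s → c < b1 + b2 := fun s c hc => by have := hb1 s c hc; omega
  have q2 : ∀ s c, c ∈ phiS M2 x.2.2 s → c < b1 + b2 := fun s c hc => by have := hb2 s c hc; omega
  have h4 := chk_sound (b := b1 + b2) (phiT_bounded q1) (phiT_bounded q2) h3
  refine eq_of_tracks g1 g2 T1 T2 (List.ne_nil_of_length_pos h0) (fun n => ?_)
  rw [← CT_eq, ← CT_eq]
  exact h4 n

theorem CH_complete (hA : ThmASt) [Finite σ1] [Finite σ2] {M1 : DFA (Fin k1) σ1} {M2 : DFA (Fin k2) σ2} {x : Inp}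
    {u : ℕ → ℕ} (g1 : Gen (fS M1 x.1.1) (phiS M1 x.1.2) none u) (g2 : Gen (fS M2 x.2.1) (phiS M2 x.2.2) none u)
    (hu : ¬ MW.UP u) : ∃ c : Cer σ1 σ2, CH M1 M2 x c = true := by
  obtain ⟨S1, hS1, ha1, hc1⟩ := sys_finite M1 x.1.1
  obtain ⟨S2, hS2, ha2, hc2⟩ := sys_finite M2 x.2.1
  obtain ⟨y1, al1, t1, γ1, K1, B1, c1, y2, al2, t2, γ2, K2, B2, c2, hy, ht1, ht2, T1, T2, hL⟩ :=
    tracks_of_A hA g1 g2 hS1 hS2 ha1 ha2 hc1 hc2 hu
  have hTU := tracks_eq g1 g2 T1 T2 hL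
  obtain ⟨S1', hS1', hc1', hY1'⟩ := track_closed hS1 ha1 ht1 hc1 T1
  obtain ⟨S2', hS2', hc2', hY2'⟩ := track_closed hS2 ha2 ht2 hc2 T2
  have hC : ∀ n, Cw (fT (fS M1 x.1.1) al1 B1) (phiT (fS M1 x.1.1) (phiS M1 x.1.2) t1 γ1 K1) (y1.map some ++ [none]) n =
      Cw (fT (fS M2 x.2.1) al2 B2) (phiT (fS M2 x.2.1) (phiS M2 x.2.2) t2 γ2 K2) (y2.map some ++ [none]) n := by
    intro n
    rw [CT_eq, CT_eq]
    exact hTU n
  obtain ⟨c, hc⟩ := chk_complete hS1' hS2' hc1' hc2' hY1' hY2' hC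
  refine ⟨(((y1, al1, t1, γ1, K1, B1, c1), (y2, al2, t2, γ2, K2, B2, c2)), c), ?_⟩
  unfold CH
  rw [Bool.and_eq_true, Bool.and_eq_true, Bool.and_eq_true, decide_eq_true_iff]
  exact ⟨List.length_pos_of_ne_nil hy, trkB_iff.2 T1, trkB_iff.2 T2, hc⟩

end

/-! ### Primitive recursive -/

section
variable {k1 k2 : ℕ} {σ1 σ2 : Type} [DecidableEq σ1] [DecidableEq σ2] [Primcodable σ1] [Primcodable σ2]
  [Finite σ1] [Finite σ2]

theorem trkS_primrec {k : ℕ} {σ : Type} [DecidableEq σ] [Primcodable σ] [Finite σ] (M : DFA (Fin k) σ) :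
    Primrec₂ (fun (x : List ℕ × List ℕ) (d : TD (LQ σ)) => trkS M x d) := by
  have d0 : Primrec (fun z : (List ℕ × List ℕ) × TD (LQ σ) => z.2) := Primrec.snd
  have d1 : Primrec (fun z : (List ℕ × List ℕ) × TD (LQ σ) => z.2.1) := Primrec.fst.comp d0
  have e1 : Primrec (fun z : (List ℕ × List ℕ) × TD (LQ σ) => z.2.2) := Primrec.snd.comp d0
  have d2 : Primrec (fun z : (List ℕ × List ℕ) × TD (LQ σ) => z.2.2.1) := Primrec.fst.comp e1
  have e2 : Primrec (fun z : (List ℕ × List ℕ) × TD (LQ σ) => z.2.2.2) := Primrec.snd.comp e1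
  have d3 : Primrec (fun z : (List ℕ × List ℕ) × TD (LQ σ) => z.2.2.2.1) := Primrec.fst.comp e2
  have e3 : Primrec (fun z : (List ℕ × List ℕ) × TD (LQ σ) => z.2.2.2.2) := Primrec.snd.comp e2
  have d4 : Primrec (fun z : (List ℕ × List ℕ) × TD (LQ σ) => z.2.2.2.2.1) := Primrec.fst.comp e3
  have e4 : Primrec (fun z : (List ℕ × List ℕ) × TD (LQ σ) => z.2.2.2.2.2) := Primrec.snd.comp e3
  have d5 : Primrec (fun z : (List ℕ × List ℕ) × TD (LQ σ) => z.2.2.2.2.2.1) := Primrec.fst.comp e4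
  have e5 : Primrec (fun z : (List ℕ × List ℕ) × TD (LQ σ) => z.2.2.2.2.2.2) := Primrec.snd.comp e4
  have d6 : Primrec (fun z : (List ℕ × List ℕ) × TD (LQ σ) => z.2.2.2.2.2.2.1) := Primrec.fst.comp e5
  have e6 : Primrec (fun z : (List ℕ × List ℕ) × TD (LQ σ) => z.2.2.2.2.2.2.2) := Primrec.snd.comp e5
  have hf : Primrec₂ (fun (z : (List ℕ × List ℕ) × TD (LQ σ)) (s : LQ σ) => fS M z.1.1 s) :=
    (fS_primrec M).comp (Primrec.fst.comp (Primrec.fst.comp Primrec.fst)) Primrec.snd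
  have hphi : Primrec₂ (fun (z : (List ℕ × List ℕ) × TD (LQ σ)) (s : LQ σ) => phiS M z.1.2 s) :=
    (phiS_primrec M).comp (Primrec.snd.comp (Primrec.fst.comp Primrec.fst)) Primrec.snd
  exact trkB_primrec (α := (List ℕ × List ℕ) × TD (LQ σ)) none hf hphi d1 d2 d3 d4 d5 d6 e6

theorem fD_primrec {k : ℕ} {σ : Type} [DecidableEq σ] [Primcodable σ] [Finite σ] (M : DFA (Fin k) σ) :
    Primrec₂ (fun (z : (List ℕ × List ℕ) × TD (LQ σ)) (s : Option (LQ σ)) => fD M z.1 z.2 s) := by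
  have d0 : Primrec (fun z : (List ℕ × List ℕ) × TD (LQ σ) => z.2) := Primrec.snd
  have e1 : Primrec (fun z : (List ℕ × List ℕ) × TD (LQ σ) => z.2.2) := Primrec.snd.comp d0
  have d2 : Primrec (fun z : (List ℕ × List ℕ) × TD (LQ σ) => z.2.2.1) := Primrec.fst.comp e1
  have e2 : Primrec (fun z : (List ℕ × List ℕ) × TD (LQ σ) => z.2.2.2) := Primrec.snd.comp e1
  have e3 : Primrec (fun z : (List ℕ × List ℕ) × TD (LQ σ) => z.2.2.2.2) := Primrec.snd.comp e2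
  have e4 : Primrec (fun z : (List ℕ × List ℕ) × TD (LQ σ) => z.2.2.2.2.2) := Primrec.snd.comp e3
  have e5 : Primrec (fun z : (List ℕ × List ℕ) × TD (LQ σ) => z.2.2.2.2.2.2) := Primrec.snd.comp e4
  have d6 : Primrec (fun z : (List ℕ × List ℕ) × TD (LQ σ) => z.2.2.2.2.2.2.1) := Primrec.fst.comp e5
  have hf : Primrec₂ (fun (z : (List ℕ × List ℕ) × TD (LQ σ)) (s : LQ σ) => fS M z.1.1 s) :=
    (fS_primrec M).comp (Primrec.fst.comp (Primrec.fst.comp Primrec.fst)) Primrec.snd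
  exact fT_primrec (α := (List ℕ × List ℕ) × TD (LQ σ)) hf d2 d6

theorem phiD_primrec {k : ℕ} {σ : Type} [DecidableEq σ] [Primcodable σ] [Finite σ] (M : DFA (Fin k) σ) :
    Primrec₂ (fun (z : (List ℕ × List ℕ) × TD (LQ σ)) (s : Option (LQ σ)) => phiD M z.1 z.2 s) := by
  have d0 : Primrec (fun z : (List ℕ × List ℕ) × TD (LQ σ) => z.2) := Primrec.snd
  have e1 : Primrec (fun z : (List ℕ × List ℕ) × TD (LQ σ) => z.2.2) := Primrec.snd.comp d0
  have e2 : Primrec (fun z : (List ℕ × List ℕ) × TD (LQ σ) => z.2.2.2) := Primrec.snd.comp e1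
  have d3 : Primrec (fun z : (List ℕ × List ℕ) × TD (LQ σ) => z.2.2.2.1) := Primrec.fst.comp e2
  have e3 : Primrec (fun z : (List ℕ × List ℕ) × TD (LQ σ) => z.2.2.2.2) := Primrec.snd.comp e2
  have d4 : Primrec (fun z : (List ℕ × List ℕ) × TD (LQ σ) => z.2.2.2.2.1) := Primrec.fst.comp e3
  have e4 : Primrec (fun z : (List ℕ × List ℕ) × TD (LQ σ) => z.2.2.2.2.2) := Primrec.snd.comp e3
  have d5 : Primrec (fun z : (List ℕ × List ℕ) × TD (LQ σ) => z.2.2.2.2.2.1) := Primrec.fst.comp e4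
  have hf : Primrec₂ (fun (z : (List ℕ × List ℕ) × TD (LQ σ)) (s : LQ σ) => fS M z.1.1 s) :=
    (fS_primrec M).comp (Primrec.fst.comp (Primrec.fst.comp Primrec.fst)) Primrec.snd
  have hphi : Primrec₂ (fun (z : (List ℕ × List ℕ) × TD (LQ σ)) (s : LQ σ) => phiS M z.1.2 s) :=
    (phiS_primrec M).comp (Primrec.snd.comp (Primrec.fst.comp Primrec.fst)) Primrec.snd
  exact phiT_primrec (α := (List ℕ × List ℕ) × TD (LQ σ)) hf hphi d3 d4 d5

theorem yD_primrec {σ : Type} [Primcodable σ] : Primrec (yD : TD (LQ σ) → List (Option (LQ σ))) := by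
  unfold yD
  exact Primrec.list_append.comp (Primrec.list_map Primrec.fst (Primrec.option_some.comp Primrec.snd))
    (Primrec.const [none])

theorem CH_primrec (M1 : DFA (Fin k1) σ1) (M2 : DFA (Fin k2) σ2) :
    Primrec₂ (fun (x : Inp) (c : Cer σ1 σ2) => CH M1 M2 x c) := by
  -- the parameter of the check
  have p1 : Primrec (fun z : Inp × (TD (LQ σ1) × TD (LQ σ2)) => (z.1.1, z.2.1)) :=
    (Primrec.fst.comp Primrec.fst).pair (Primrec.fst.comp Primrec.snd)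
  have p2 : Primrec (fun z : Inp × (TD (LQ σ1) × TD (LQ σ2)) => (z.1.2, z.2.2)) :=
    (Primrec.snd.comp Primrec.fst).pair (Primrec.snd.comp Primrec.snd)
  have c1 := chk_primrec (α := Inp × (TD (LQ σ1) × TD (LQ σ2))) (Q1 := Option (LQ σ1)) (Q2 := Option (LQ σ2))
    (f1 := fun z => fD M1 z.1.1 z.2.1) (phi1 := fun z => phiD M1 z.1.1 z.2.1) (Y1 := fun z => yD z.2.1)
    (f2 := fun z => fD M2 z.1.2 z.2.2) (phi2 := fun z => phiD M2 z.1.2 z.2.2) (Y2 := fun z => yD z.2.2)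
    ((fD_primrec M1).comp (p1.comp Primrec.fst) Primrec.snd) ((phiD_primrec M1).comp (p1.comp Primrec.fst) Primrec.snd)
    (yD_primrec.comp (Primrec.fst.comp Primrec.snd))
    ((fD_primrec M2).comp (p2.comp Primrec.fst) Primrec.snd) ((phiD_primrec M2).comp (p2.comp Primrec.fst) Primrec.snd)
    (yD_primrec.comp (Primrec.snd.comp Primrec.snd))
  have w : Primrec (fun z : Inp × Cer σ1 σ2 => (z.1, z.2.1)) := Primrec.fst.pair (Primrec.fst.comp Primrec.snd)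
  have c2 : Primrec (fun z : Inp × Cer σ1 σ2 => chk (fD M1 z.1.1 z.2.1.1) (phiD M1 z.1.1 z.2.1.1) (yD z.2.1.1)
      (fD M2 z.1.2 z.2.1.2) (phiD M2 z.1.2 z.2.1.2) (yD z.2.1.2) z.2.2) :=
    c1.comp w (Primrec.snd.comp Primrec.snd)
  have t1 : Primrec (fun z : Inp × Cer σ1 σ2 => trkS M1 z.1.1 z.2.1.1) :=
    (trkS_primrec M1).comp (Primrec.fst.comp Primrec.fst) (Primrec.fst.comp (Primrec.fst.comp Primrec.snd))
  have t2 : Primrec (fun z : Inp × Cer σ1 σ2 => trkS M2 z.1.2 z.2.1.2) :=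
    (trkS_primrec M2).comp (Primrec.snd.comp Primrec.fst) (Primrec.snd.comp (Primrec.fst.comp Primrec.snd))
  have t0 : Primrec (fun z : Inp × Cer σ1 σ2 => decide (0 < z.2.1.1.1.length)) :=
    (Primrec.nat_lt.comp (Primrec.const 0) (Primrec.list_length.comp
      (Primrec.fst.comp (Primrec.fst.comp (Primrec.fst.comp Primrec.snd))))).decide
  exact Primrec.and.comp t0 (Primrec.and.comp t1 (Primrec.and.comp t2 c2))

end

/-- the main theorem, from THEOREM A -/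
theorem he_core (hA : ThmASt) {k1 k2 : ℕ} {σ1 σ2 : Type} [Fintype σ1] [Fintype σ2] (M1 : DFA (Fin k1) σ1)
    (M2 : DFA (Fin k2) σ2) (h1 : {w : List (Fin k1) | w ∈ M1.accepts}.Infinite)
    (h2 : {w : List (Fin k2) | w ∈ M2.accepts}.Infinite) :
    ComputablePred (fun (p : (List ℕ × List ℕ) × (List ℕ × List ℕ)) =>
      ∀ w1 ∈ M1.accepts, ∀ w2 ∈ M2.accepts,
        Set.ncard {v : List (Fin k1) | v ∈ M1.accepts ∧
            (v.length < w1.length ∨ (v.length = w1.length ∧ List.Lex (· < ·) v w1))} =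
          Set.ncard {v : List (Fin k2) | v ∈ M2.accepts ∧
            (v.length < w2.length ∨ (v.length = w2.length ∧ List.Lex (· < ·) v w2))} →
        p.1.2.getD (List.foldl (fun q a => p.1.1.getD (q * k1 + a.val) 0) 0 w1) 0 =
          p.2.2.getD (List.foldl (fun q a => p.2.1.getD (q * k2 + a.val) 0) 0 w2) 0) := by
  classical
  let _ : Primcodable σ1 := Primcodable.ofEquiv (Fin (Fintype.card σ1)) (Fintype.equivFin σ1)
  let _ : Primcodable σ2 := Primcodable.ofEquiv (Fin (Fintype.card σ2)) (Fintype.equivFin σ2)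
  have key : ∀ x : Inp, ((∃ n, RR M1 M2 x n) ∨ ∃ c : Cer σ1 σ2, CH M1 M2 x c = true) ↔
      (∀ w1 ∈ M1.accepts, ∀ w2 ∈ M2.accepts,
        Set.ncard {v : List (Fin k1) | v ∈ M1.accepts ∧
            (v.length < w1.length ∨ (v.length = w1.length ∧ List.Lex (· < ·) v w1))} =
          Set.ncard {v : List (Fin k2) | v ∈ M2.accepts ∧
            (v.length < w2.length ∨ (v.length = w2.length ∧ List.Lex (· < ·) v w2))} →
        x.1.2.getD (List.foldl (fun q a => x.1.1.getD (q * k1 + a.val) 0) 0 w1) 0 =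
          x.2.2.getD (List.foldl (fun q a => x.2.1.getD (q * k2 + a.val) 0) 0 w2) 0) := by
    intro x
    obtain ⟨u1, g1, hf1⟩ := sys_gen h1 x.1.1 x.1.2
    obtain ⟨u2, g2, hf2⟩ := sys_gen h2 x.2.1 x.2.2
    rw [pred_iff M1 M2 h1 h2 x.1.1 x.1.2 x.2.1 x.2.2 _ _ hf1 hf2]
    constructor
    · rintro (hn | ⟨c, hc⟩)
      · by_contra hne
        exact hne ((RR_iff h1 h2 x _ _ hf1 hf2 (fun h => absurd h hne)).1 hn)
      · rw [CH_sound g1 g2 hc]
    · intro he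
      have hu : u1 = u2 := by
        funext i
        have := congrFun he i
        exact_mod_cast this
      by_cases hup : MW.UP u1
      · left
        refine (RR_iff h1 h2 x _ _ hf1 hf2 (fun _ => ?_)).2 he
        obtain ⟨p, d, hd, hpd⟩ := hup
        refine ⟨p, d - 1, fun i hi => ?_⟩
        have e : i + (d - 1 + 1) = i + d := by omega
        show ((u1 (i + (d - 1 + 1)) : ℕ) : ℤ) = ((u1 i : ℕ) : ℤ)
        rw [e, hpd i hi]
      · right
        rw [← hu] at g2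
        exact CH_complete hA g1 g2 hup
  have hr : PrimrecRel (fun (x : Inp) (i : ℕ) => ¬ vl M1 x.1 i = vl M2 x.2 i) := by
    refine PrimrecPred.not (Primrec.eq.comp ?_ ?_)
    · exact (vl_primrec M1).comp ((Primrec.fst.comp Primrec.fst).pair Primrec.snd)
    · exact (vl_primrec M2).comp ((Primrec.snd.comp Primrec.fst).pair Primrec.snd)
  rw [ComputablePred.computable_iff_re_compl_re']
  refine ⟨(re_or (re_exists (RR_primrec M1 M2)) (re_exists_code (CH_primrec M1 M2))).of_eq key,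
    (re_exists hr).of_eq ?_⟩
  intro x
  obtain ⟨u1, g1, hf1⟩ := sys_gen h1 x.1.1 x.1.2
  obtain ⟨u2, g2, hf2⟩ := sys_gen h2 x.2.1 x.2.2
  rw [pred_iff M1 M2 h1 h2 x.1.1 x.1.2 x.2.1 x.2.2 _ _ hf1 hf2]
  have v1 : ∀ i, ((vl M1 x.1 i : ℕ) : ℤ) = ((u1 i : ℕ) : ℤ) := fun i => vl_eq h1 (t := x.1.1) (o := x.1.2) hf1 i
  have v2 : ∀ i, ((vl M2 x.2 i : ℕ) : ℤ) = ((u2 i : ℕ) : ℤ) := fun i => vl_eq h2 (t := x.2.1) (o := x.2.2) hf2 i
  constructor
  · rintro ⟨i, hi⟩ h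
    refine hi ?_
    have e : ((vl M1 x.1 i : ℕ) : ℤ) = ((vl M2 x.2 i : ℕ) : ℤ) := by
      rw [v1, v2]
      exact congrFun h i
    exact_mod_cast e
  · intro h
    by_contra hc
    refine h ?_
    funext i
    have e : vl M1 x.1 i = vl M2 x.2 i := by
      by_contra hi
      exact hc ⟨i, hi⟩
    rw [← v1, ← v2, e]

end AW.HE
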