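import Mathlib

/-!
List polynomials with coefficients in the natural numbers: a monomial is a list of variables, a
polynomial is a list of monomials. Translation to `MvPolynomial`, the equality test.
-/

set_option autoImplicit false

namespace AW.HE

open MvPolynomial

variable {X : Type*}

/-- a monomial as a polynomial -/
noncomputable def mMv (m : List X) : MvPolynomial X ℤ := (m.map MvPolynomial.X).prod

/-- a list polynomial as a polynomial -/
noncomputable def toMv (p : List (List X)) : MvPolynomial X ℤ := (p.map mMv).sum

/-- product of list polynomials -/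
def lmul (p q : List (List X)) : List (List X) := p.flatMap fun m => q.map fun m' => m ++ m'

theorem mMv_nil : mMv ([] : List X) = 1 := rfl

theorem mMv_append (m m' : List X) : mMv (m ++ m') = mMv m * mMv m' := by
  unfold mMv
  rw [List.map_append, List.prod_append]

theorem toMv_nil : toMv ([] : List (List X)) = 0 := rfl

theorem toMv_cons (m : List X) (p : List (List X)) : toMv (m :: p) = mMv m + toMv p := by
  unfold toMv
  rw [List.map_cons, List.sum_cons]

theorem toMv_append (p q : List (List X)) : toMv (p ++ q) = toMv p + toMv q := by
  unfold toMv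
  rw [List.map_append, List.sum_append]

theorem toMv_map_append (m : List X) (q : List (List X)) :
    toMv (q.map fun m' => m ++ m') = mMv m * toMv q := by
  induction q with
  | nil => rw [List.map_nil, toMv_nil, mul_zero]
  | cons m' q ih => rw [List.map_cons, toMv_cons, ih, toMv_cons, mMv_append, mul_add]

theorem toMv_lmul (p q : List (List X)) : toMv (lmul p q) = toMv p * toMv q := by
  induction p with
  | nil =>
    rw [toMv_nil, zero_mul]
    rfl
  | cons m p ih =>
    have h : lmul (m :: p) q = (q.map fun m' => m ++ m') ++ lmul p q := by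
      unfold lmul
      rw [List.flatMap_cons]
    rw [h, toMv_append, ih, toMv_map_append, toMv_cons, add_mul]

/-- every polynomial is a difference of list polynomials -/
theorem exists_toMv (P : MvPolynomial X ℤ) : ∃ p q : List (List X), P = toMv p - toMv q := by
  induction P using MvPolynomial.induction_on with
  | C a =>
    have h : ∀ n : ℕ, toMv (List.replicate n ([] : List X)) = (n : MvPolynomial X ℤ) := by
      intro n
      induction n with
      | zero => rw [List.replicate_zero, toMv_nil, Nat.cast_zero]
      | succ n ih => rw [List.replicate_succ, toMv_cons, ih, mMv_nil, Nat.cast_succ, add_comm]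
    refine ⟨List.replicate a.toNat [], List.replicate (-a).toNat [], ?_⟩
    rw [h, h]
    have h2 : a = (a.toNat : ℤ) - ((-a).toNat : ℤ) := by omega
    calc MvPolynomial.C a = MvPolynomial.C ((a.toNat : ℤ) - ((-a).toNat : ℤ)) := by rw [← h2]
      _ = _ := by rw [MvPolynomial.C_sub, map_natCast, map_natCast]
  | add P Q hP hQ =>
    obtain ⟨p, q, rfl⟩ := hP
    obtain ⟨p', q', rfl⟩ := hQ
    refine ⟨p ++ p', q ++ q', ?_⟩
    rw [toMv_append, toMv_append]
    ring
  | mul_X P x hP =>
    obtain ⟨p, q, rfl⟩ := hP
    refine ⟨lmul p [[x]], lmul q [[x]], ?_⟩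
    have h : toMv [[x]] = MvPolynomial.X x := by
      rw [toMv_cons, toMv_nil, add_zero]
      unfold mMv
      rw [List.map_cons, List.map_nil, List.prod_singleton]
    rw [toMv_lmul, toMv_lmul, h]
    ring

variable [DecidableEq X]

/-- the monomials `m` and `m'` are equal -/
def peq (m m' : List X) : Bool := (m ++ m').all fun x => m.count x == m'.count x

theorem peq_iff {m m' : List X} : peq m m' = true ↔ m.Perm m' := by
  unfold peq
  rw [List.all_eq_true, List.perm_iff_count]
  constructor
  · intro h x
    by_cases hx : x ∈ m ++ m'
    · exact beq_iff_eq.1 (h x hx)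
    · rw [List.mem_append, not_or] at hx
      rw [List.count_eq_zero_of_not_mem hx.1, List.count_eq_zero_of_not_mem hx.2]
  · intro h x _
    exact beq_iff_eq.2 (h x)

/-- the number of the monomials of `p` which are equal to `m` -/
def mcnt (m : List X) (p : List (List X)) : ℕ := (p.filter fun m' => peq m m').length

/-- equality test -/
def peqv (p q : List (List X)) : Bool := (p ++ q).all fun m => mcnt m p == mcnt m q

theorem mMv_eq (m : List X) :
    mMv m = monomial (Multiset.toFinsupp (m : Multiset X)) (1 : ℤ) := by
  induction m with
  | nil =>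
    rw [mMv_nil]
    simp
  | cons x m ih =>
    have h : mMv (x :: m) = MvPolynomial.X x * mMv m := by
      unfold mMv
      rw [List.map_cons, List.prod_cons]
    rw [h, ih, MvPolynomial.X, MvPolynomial.monomial_mul, one_mul]
    congr 1
    rw [← Multiset.cons_coe, ← Multiset.singleton_add, Multiset.toFinsupp_add, Multiset.toFinsupp_singleton]

theorem coeff_mMv (m m' : List X) :
    coeff (Multiset.toFinsupp (m : Multiset X)) (mMv m') = if peq m m' then 1 else 0 := by
  rw [mMv_eq, coeff_monomial]
  have h : (Multiset.toFinsupp (m' : Multiset X) = Multiset.toFinsupp (m : Multiset X)) ↔ peq m m' = true := by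
    rw [Multiset.toFinsupp.injective.eq_iff, Multiset.coe_eq_coe, peq_iff]
    exact ⟨fun h => h.symm, fun h => h.symm⟩
  by_cases h1 : peq m m' = true
  · rw [if_pos (h.2 h1), if_pos h1]
  · rw [if_neg (fun h2 => h1 (h.1 h2)), if_neg h1]

theorem coeff_toMv (m : List X) (p : List (List X)) :
    coeff (Multiset.toFinsupp (m : Multiset X)) (toMv p) = (mcnt m p : ℤ) := by
  induction p with
  | nil => rw [toMv_nil, coeff_zero]; rfl
  | cons m' p ih =>
    rw [toMv_cons, coeff_add, ih, coeff_mMv]
    unfold mcnt
    by_cases h : peq m m' = true
    · rw [List.filter_cons_of_pos h, if_pos h, List.length_cons]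
      push_cast
      ring
    · rw [List.filter_cons_of_neg h, if_neg h, zero_add]

theorem peqv_iff {p q : List (List X)} : peqv p q = true ↔ toMv p = toMv q := by
  have hall : ∀ d : X →₀ ℕ, ∃ m : List X, Multiset.toFinsupp (m : Multiset X) = d := by
    intro d
    refine ⟨(Finsupp.toMultiset d).toList, ?_⟩
    rw [Multiset.coe_toList, Finsupp.toMultiset_toFinsupp]
  unfold peqv
  rw [List.all_eq_true]
  constructor
  · intro h
    ext d
    obtain ⟨m, rfl⟩ := hall d
    rw [coeff_toMv, coeff_toMv]
    by_cases hm : ∃ m' ∈ p ++ q, peq m m' = true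
    · obtain ⟨m', hm', hp⟩ := hm
      have h1 := beq_iff_eq.1 (h m' hm')
      have h2 : ∀ r : List (List X), mcnt m r = mcnt m' r := by
        intro r
        unfold mcnt
        congr 1
        apply List.filter_congr
        intro x _
        have h3 : m.Perm m' := peq_iff.1 hp
        have h4 : (peq m x = true) ↔ (peq m' x = true) := by
          rw [peq_iff, peq_iff]
          exact ⟨fun h => h3.symm.trans h, fun h => h3.trans h⟩
        exact Bool.eq_iff_iff.2 h4
      rw [h2, h2, h1]
    · push Not at hm
      have h2 : ∀ r : List (List X), (∀ x ∈ r, x ∈ p ++ q) → mcnt m r = 0 := by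
        intro r hr
        unfold mcnt
        rw [List.length_eq_zero_iff, List.filter_eq_nil_iff]
        exact fun x hx => hm x (hr x hx)
      rw [h2 p (fun x hx => List.mem_append_left _ hx), h2 q (fun x hx => List.mem_append_right _ hx)]
  · intro h m _
    rw [beq_iff_eq]
    have h1 := coeff_toMv m p
    rw [h, coeff_toMv] at h1
    exact_mod_cast h1.symm

end AW.HE
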