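import Pool.Agent.Lib.MP_dd05d9_lc.HE.EChk

/-!
Soundness and completeness of the certificate.
-/

set_option autoImplicit false

namespace AW.HE

open MvPolynomial

theorem mMv_cons {X : Type*} (x : X) (m : List X) : mMv (x :: m) = MvPolynomial.X x * mMv m := by
  unfold mMv
  rw [List.map_cons, List.prod_cons]

theorem mMv_single {X : Type*} (x : X) : mMv [x] = MvPolynomial.X x := by
  rw [mMv_cons, mMv_nil, mul_one]

theorem toMv_flatMap {X β : Type*} (l : List β) (g : β → List (List X)) :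
    toMv (l.flatMap g) = (l.map fun b => toMv (g b)).sum := by
  induction l with
  | nil => rfl
  | cons b l ih => rw [List.flatMap_cons, toMv_append, ih, List.map_cons, List.sum_cons]

theorem pol_nil {Q X : Type*} (v p : Q → X) : pol v p [] = [] := rfl

theorem pol_cons {Q X : Type*} (v p : Q → X) (s : Q) (w : List Q) :
    pol v p (s :: w) = [v s] :: (pol v p w).map (fun m => p s :: m) := rfl

theorem toMv_pol_cons {Q X : Type*} (v p : Q → X) (s : Q) (w : List Q) :
    toMv (pol v p (s :: w)) = MvPolynomial.X (v s) + MvPolynomial.X (p s) * toMv (pol v p w) := by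
  rw [pol_cons, toMv_cons, mMv_single]
  have h := toMv_map_append [p s] (pol v p w)
  rw [mMv_single] at h
  rw [← h]
  rfl

theorem toMv_side {X : Type*} (c : Crt X) (P P' : ℕ → List (List X)) :
    toMv (side c P P') = toMv (P c.1) + ((List.range c.1).map fun i =>
      toMv (c.2.1.getD i []) * toMv (P' i) + toMv (c.2.2.getD i []) * toMv (P i)).sum := by
  unfold side
  rw [toMv_append, toMv_flatMap]
  congr 2
  apply List.map_congr_left
  intro i _
  rw [toMv_append, toMv_lmul, toMv_lmul]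

/-! ### Soundness -/

/-- the value of a word -/
def val (b : ℕ) (l : List ℕ) : ℤ := ((Nat.ofDigits b (l.map Nat.succ) : ℕ) : ℤ)

theorem val_nil (b : ℕ) : val b [] = 0 := rfl

theorem val_append (b : ℕ) (l l' : List ℕ) : val b (l ++ l') = val b l + (b : ℤ) ^ l.length * val b l' := by
  unfold val
  rw [List.map_append, Nat.ofDigits_append, List.length_map]
  push_cast
  ring

theorem val_inj {b : ℕ} {l l' : List ℕ} (h : ∀ c ∈ l, c + 1 < b) (h' : ∀ c ∈ l', c + 1 < b)
    (e : val b l = val b l') : l = l' := by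
  have hne : ∀ (r : List ℕ) (hr : r.map Nat.succ ≠ []), (r.map Nat.succ).getLast hr ≠ 0 := by
    intro r hr h0
    have h1 := List.getLast_mem hr
    rw [h0, List.mem_map] at h1
    obtain ⟨x, _, hx⟩ := h1
    exact Nat.succ_ne_zero x hx
  have hlt : ∀ r : List ℕ, (∀ c ∈ r, c + 1 < b) → ∀ x ∈ r.map Nat.succ, x < b := by
    intro r hr x hx
    obtain ⟨c, hc, rfl⟩ := List.mem_map.1 hx
    exact hr c hc
  have e2 : Nat.ofDigits b (l.map Nat.succ) = Nat.ofDigits b (l'.map Nat.succ) := by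
    unfold val at e
    exact_mod_cast e
  by_cases hb : 1 < b
  · have h1 := Nat.digits_ofDigits b hb (l.map Nat.succ) (hlt l h) (hne l)
    have h2 := Nat.digits_ofDigits b hb (l'.map Nat.succ) (hlt l' h') (hne l')
    rw [e2, h2] at h1
    exact (List.map_injective_iff.2 Nat.succ_injective h1).symm
  · have hl : ∀ r : List ℕ, (∀ c ∈ r, c + 1 < b) → r = [] := by
      intro r hr
      rw [List.eq_nil_iff_forall_not_mem]
      intro c hc
      have := hr c hc
      omega
    rw [hl l h, hl l' h']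

theorem eval_pol {Q X : Type*} {v p : Q → X} {b : ℕ} {z : X → ℤ} {C : Q → List ℕ} (hv : ∀ s, z (v s) = val b (C s))
    (hp : ∀ s, z (p s) = (b : ℤ) ^ (C s).length) (w : List Q) :
    eval z (toMv (pol v p w)) = val b (w.flatMap C) := by
  induction w with
  | nil => rw [pol_nil, toMv_nil, map_zero]; rfl
  | cons s w ih =>
    rw [toMv_pol_cons, map_add, map_mul, eval_X, eval_X, ih, hv, hp, List.flatMap_cons, val_append]

theorem flatMap_Cw {Q A : Type*} (f : Q → List Q) (phi : Q → List A) (w : List Q) (m : ℕ) :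
    (w.flatMap fun s => Cw f phi [s] m) = Cw f phi w m := by
  induction w with
  | nil => exact (Cw_nil m).symm
  | cons s w ih => rw [List.flatMap_cons, ih, Cw_cons s w]

variable {Q1 Q2 : Type*} {f1 : Q1 → List Q1} {phi1 : Q1 → List ℕ} {Y1 : List Q1}
  {f2 : Q2 → List Q2} {phi2 : Q2 → List ℕ} {Y2 : List Q2}

/-- the point of level `m` -/
def zpt (f1 : Q1 → List Q1) (phi1 : Q1 → List ℕ) (f2 : Q2 → List Q2) (phi2 : Q2 → List ℕ) (b m : ℕ) :
    (Q1 ⊕ Q2) × Bool → ℤ
  | (Sum.inl s, false) => val b (Cw f1 phi1 [s] m)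
  | (Sum.inl s, true) => (b : ℤ) ^ (Cw f1 phi1 [s] m).length
  | (Sum.inr s, false) => val b (Cw f2 phi2 [s] m)
  | (Sum.inr s, true) => (b : ℤ) ^ (Cw f2 phi2 [s] m).length

theorem eval_D1 (b m k : ℕ) : eval (zpt f1 phi1 f2 phi2 b m) (toMv (D1 Q2 f1 Y1 k)) = val b (Cw f1 phi1 Y1 (m + k)) := by
  unfold D1
  rw [eval_pol (z := zpt f1 phi1 f2 phi2 b m) (v := fun s => (Sum.inl s, false)) (p := fun s => (Sum.inl s, true))
    (C := fun s => Cw f1 phi1 [s] m) (b := b) (fun s => rfl) (fun s => rfl), flatMap_Cw, ← Cw_add]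

theorem eval_D2 (b m k : ℕ) : eval (zpt f1 phi1 f2 phi2 b m) (toMv (D2 Q1 f2 Y2 k)) = val b (Cw f2 phi2 Y2 (m + k)) := by
  unfold D2
  rw [eval_pol (z := zpt f1 phi1 f2 phi2 b m) (v := fun s => (Sum.inr s, false)) (p := fun s => (Sum.inr s, true))
    (C := fun s => Cw f2 phi2 [s] m) (b := b) (fun s => rfl) (fun s => rfl), flatMap_Cw, ← Cw_add]

theorem Cw_bounded {Q : Type*} {f : Q → List Q} {phi : Q → List ℕ} {b : ℕ} (h : ∀ s c, c ∈ phi s → c < b)
    (w : List Q) (k : ℕ) : ∀ c ∈ Cw f phi w k, c < b := by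
  intro c hc
  unfold Cw at hc
  obtain ⟨s, _, hs⟩ := List.mem_flatMap.1 hc
  exact h s c hs

theorem chk_sound [DecidableEq Q1] [DecidableEq Q2] {b : ℕ} (hb1 : ∀ s c, c ∈ phi1 s → c < b)
    (hb2 : ∀ s c, c ∈ phi2 s → c < b) {c : Crt ((Q1 ⊕ Q2) × Bool)}
    (h : chk f1 phi1 Y1 f2 phi2 Y2 c = true) (n : ℕ) : Cw f1 phi1 Y1 n = Cw f2 phi2 Y2 n := by
  unfold chk at h
  rw [Bool.and_eq_true, List.all_eq_true] at h
  obtain ⟨h1, h2⟩ := h
  have h2' := peqv_iff.1 h2
  induction n using Nat.strong_induction_on with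
  | _ n ih =>
    by_cases hn : n < c.1
    · exact beq_iff_eq.1 (h1 n (List.mem_range.2 hn))
    · obtain ⟨m, hm⟩ : ∃ m, n = m + c.1 := ⟨n - c.1, by omega⟩
      rw [hm]
      have e := congrArg (eval (zpt f1 phi1 f2 phi2 (b + 1) m)) h2'
      rw [toMv_side, toMv_side, map_add, map_add, map_list_sum, map_list_sum, List.map_map, List.map_map,
        eval_D1, eval_D2] at e
      have e2 : List.map ((eval (zpt f1 phi1 f2 phi2 (b + 1) m)) ∘ fun i =>
            toMv (c.2.1.getD i []) * toMv (D2 Q1 f2 Y2 i) + toMv (c.2.2.getD i []) * toMv (D1 Q2 f1 Y1 i))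
            (List.range c.1) =
          List.map ((eval (zpt f1 phi1 f2 phi2 (b + 1) m)) ∘ fun i =>
            toMv (c.2.1.getD i []) * toMv (D1 Q2 f1 Y1 i) + toMv (c.2.2.getD i []) * toMv (D2 Q1 f2 Y2 i))
            (List.range c.1) := by
        apply List.map_congr_left
        intro i hi
        rw [List.mem_range] at hi
        have hi2 := ih (m + i) (by omega)
        simp only [Function.comp_apply, map_add, map_mul, eval_D1, eval_D2, hi2]
      rw [e2] at e
      have e3 := add_right_cancel e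
      exact val_inj (fun c hc => by have := Cw_bounded hb1 _ _ c hc; omega)
        (fun c hc => by have := Cw_bounded hb2 _ _ c hc; omega) e3

/-! ### Existence of the certificate -/

/-- the variables of the polynomial of a word -/
theorem pol_vars {Q X : Type*} {v p : Q → X} {W : Set X} : ∀ {w : List Q}, (∀ s ∈ w, v s ∈ W ∧ p s ∈ W) →
    ∀ m ∈ pol v p w, ∀ x ∈ m, x ∈ W
  | [], _ => by
    intro m hm
    rw [pol_nil] at hm
    exact absurd hm (List.not_mem_nil)
  | s :: w, h => by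
    have ih := pol_vars (v := v) (p := p) (W := W) (w := w) (fun r hr => h r (List.mem_cons_of_mem _ hr))
    have hs := h s List.mem_cons_self
    intro m hm x hx
    rw [pol_cons] at hm
    rcases List.mem_cons.1 hm with rfl | hm
    · rw [List.mem_singleton] at hx
      rw [hx]
      exact hs.1
    · obtain ⟨m', hm', rfl⟩ := List.mem_map.1 hm
      rcases List.mem_cons.1 hx with rfl | hx
      · exact hs.2
      · exact ih m' hm' x hx

theorem exists_rename_m {X : Type*} {W : Set X} : ∀ m : List X, (∀ x ∈ m, x ∈ W) →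
    ∃ P : MvPolynomial W ℤ, rename Subtype.val P = mMv m
  | [], _ => ⟨1, by rw [map_one]; rfl⟩
  | x :: m, h => by
    obtain ⟨P, hP⟩ := exists_rename_m (W := W) m (fun y hy => h y (List.mem_cons_of_mem _ hy))
    refine ⟨MvPolynomial.X ⟨x, h x List.mem_cons_self⟩ * P, ?_⟩
    rw [map_mul, rename_X, hP, mMv_cons]

theorem exists_rename {X : Type*} {W : Set X} : ∀ p : List (List X), (∀ m ∈ p, ∀ x ∈ m, x ∈ W) →
    ∃ P : MvPolynomial W ℤ, rename Subtype.val P = toMv p
  | [], _ => ⟨0, by rw [map_zero]; rfl⟩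
  | m :: p, h => by
    obtain ⟨P, hP⟩ := exists_rename (W := W) p (fun y hy => h y (List.mem_cons_of_mem _ hy))
    obtain ⟨P', hP'⟩ := exists_rename_m (W := W) m (h m List.mem_cons_self)
    exact ⟨P' + P, by rw [map_add, hP, hP', toMv_cons]⟩

theorem Fw_closed {Q : Type*} {f : Q → List Q} {S : Set Q} (h : ∀ s ∈ S, ∀ r ∈ f s, r ∈ S) {Y : List Q}
    (hY : ∀ s ∈ Y, s ∈ S) (k : ℕ) : ∀ s ∈ (Fw f)^[k] Y, s ∈ S := by
  induction k with
  | zero => exact hY
  | succ k ih =>
    rw [Function.iterate_succ_apply']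
    intro s hs
    unfold Fw at hs
    obtain ⟨r, hr, hsr⟩ := List.mem_flatMap.1 hs
    exact h r (ih r hr) s hsr

/-- in a Noetherian ring every sequence satisfies a relation -/
theorem exists_relation {R : Type*} [CommRing R] [IsNoetherianRing R] (E : ℕ → R) :
    ∃ (k : ℕ) (q : Fin k → R), E k = ∑ i : Fin k, q i * E i := by
  let I : ℕ →o Ideal R := ⟨fun n => Ideal.span (Set.range fun i : Fin n => E i), fun m n hmn => by
    apply Ideal.span_mono
    rintro x ⟨i, rfl⟩
    exact ⟨⟨i, i.2.trans_le hmn⟩, rfl⟩⟩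
  obtain ⟨k, hk⟩ := monotone_stabilizes_iff_noetherian.2 (inferInstance : IsNoetherian R R) I
  have h1 : E k ∈ I (k + 1) := Ideal.subset_span ⟨⟨k, Nat.lt_succ_self k⟩, rfl⟩
  rw [← hk (k + 1) (Nat.le_succ k)] at h1
  obtain ⟨q, hq⟩ := Ideal.mem_span_range_iff_exists_fun.1 h1
  exact ⟨k, q, hq.symm⟩

theorem chk_complete [DecidableEq Q1] [DecidableEq Q2] {S1 : Set Q1} {S2 : Set Q2} (hS1 : S1.Finite)
    (hS2 : S2.Finite) (hc1 : ∀ s ∈ S1, ∀ r ∈ f1 s, r ∈ S1) (hc2 : ∀ s ∈ S2, ∀ r ∈ f2 s, r ∈ S2)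
    (hY1 : ∀ s ∈ Y1, s ∈ S1) (hY2 : ∀ s ∈ Y2, s ∈ S2)
    (h : ∀ n, Cw f1 phi1 Y1 n = Cw f2 phi2 Y2 n) : ∃ c, chk f1 phi1 Y1 f2 phi2 Y2 c = true := by
  classical
  let W : Set ((Q1 ⊕ Q2) × Bool) := (Sum.inl '' S1 ∪ Sum.inr '' S2) ×ˢ Set.univ
  have hW : W.Finite := ((hS1.image _).union (hS2.image _)).prod Set.finite_univ
  have : Finite W := hW
  have e1 : ∀ n, ∃ P : MvPolynomial W ℤ, rename Subtype.val P = toMv (D1 Q2 f1 Y1 n) := by
    intro n
    apply exists_rename
    unfold D1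
    apply pol_vars
    intro s hs
    have := Fw_closed hc1 hY1 n s hs
    exact ⟨⟨Or.inl ⟨s, this, rfl⟩, trivial⟩, ⟨Or.inl ⟨s, this, rfl⟩, trivial⟩⟩
  have e2 : ∀ n, ∃ P : MvPolynomial W ℤ, rename Subtype.val P = toMv (D2 Q1 f2 Y2 n) := by
    intro n
    apply exists_rename
    unfold D2
    apply pol_vars
    intro s hs
    have := Fw_closed hc2 hY2 n s hs
    exact ⟨⟨Or.inr ⟨s, this, rfl⟩, trivial⟩, ⟨Or.inr ⟨s, this, rfl⟩, trivial⟩⟩
  choose E1 hE1 using e1
  choose E2 hE2 using e2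
  obtain ⟨k, q, hq⟩ := exists_relation (fun n => E1 n - E2 n)
  have h3 := fun i : Fin k => exists_toMv (rename Subtype.val (q i))
  choose A B hAB using h3
  refine ⟨(k, List.ofFn A, List.ofFn B), ?_⟩
  unfold chk
  rw [Bool.and_eq_true, List.all_eq_true]
  refine ⟨fun i _ => beq_iff_eq.2 (h i), ?_⟩
  rw [peqv_iff, toMv_side, toMv_side]
  have hq2 := congrArg (rename Subtype.val) hq
  rw [map_sub, hE1, hE2, map_sum] at hq2
  have hg : ∀ (A : Fin k → List (List ((Q1 ⊕ Q2) × Bool))) (i : Fin k), (List.ofFn A).getD (i : ℕ) [] = A i := by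
    intro A i
    rw [List.getD_eq_getElem _ _ (by rw [List.length_ofFn]; exact i.2), List.getElem_ofFn]
  have hs : ∀ g : ℕ → MvPolynomial ((Q1 ⊕ Q2) × Bool) ℤ, ((List.range k).map g).sum = ∑ i : Fin k, g i := by
    intro g
    rw [← Finset.sum_range, ← List.sum_toFinset _ List.nodup_range, List.toFinset_range]
  simp only [hs, hg]
  have hq3 : toMv (D1 Q2 f1 Y1 k) - toMv (D2 Q1 f2 Y2 k) =
      ∑ i : Fin k, (toMv (A i) - toMv (B i)) * (toMv (D1 Q2 f1 Y1 i) - toMv (D2 Q1 f2 Y2 i)) := by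
    rw [hq2]
    apply Finset.sum_congr rfl
    intro i _
    rw [map_mul, map_sub, hE1, hE2, hAB]
  have hq4 : ∑ i : Fin k, (toMv (A i) - toMv (B i)) * (toMv (D1 Q2 f1 Y1 i) - toMv (D2 Q1 f2 Y2 i)) =
      ∑ i : Fin k, (toMv (A i) * toMv (D1 Q2 f1 Y1 i) + toMv (B i) * toMv (D2 Q1 f2 Y2 i)) -
      ∑ i : Fin k, (toMv (A i) * toMv (D2 Q1 f2 Y2 i) + toMv (B i) * toMv (D1 Q2 f1 Y1 i)) := by
    rw [← Finset.sum_sub_distrib]
    apply Finset.sum_congr rfl
    intro i _
    ring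
  rw [hq4] at hq3
  linear_combination hq3

end AW.HE
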